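import Mathlib

set_option autoImplicit false

/-!
# Ottaviani-Paoletti: the recursion, abstract part

`BiK F e` : abstract double complex of the Koszul complex of `P_d(U)`, `d = e + 1`, with respect to
the splitting `P_d(U) = S + c A`, `A = P_e(U)`, `S = P_d(Q)`, `Q = U / c`.
`G a b m` : `a` letters of `S`, `b` letters of `c A`, coefficients of degree `m`.
`D = dS + c dA` is the Koszul differential of `P_d(U)`.
`rho` = putting `c = 0` in the coefficients.
-/

namespace Pool.Agent.H80.OP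

structure BiK (k F : Type*) [Field k] [AddCommGroup F] [Module k F] (e : ℕ) where
  G : ℕ → ℕ → ℕ → Submodule k F
  dS : F →ₗ[k] F
  dA : F →ₗ[k] F
  c : F →ₗ[k] F
  rho : F →ₗ[k] F
  pr : ℕ → F →ₗ[k] F
  dS_mem : ∀ {a b m x}, x ∈ G (a + 1) b m → dS x ∈ G a b (m + (e + 1))
  dS_zero : ∀ {b m x}, x ∈ G 0 b m → dS x = 0
  dA_mem : ∀ {a b m x}, x ∈ G a (b + 1) m → dA x ∈ G a b (m + e)
  dA_zero : ∀ {a m x}, x ∈ G a 0 m → dA x = 0
  c_mem : ∀ {a b m x}, x ∈ G a b m → c x ∈ G a b (m + 1)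
  dSdS : ∀ x, dS (dS x) = 0
  dAdA : ∀ x, dA (dA x) = 0
  anti : ∀ x, dS (dA x) = - dA (dS x)
  c_dS : ∀ x, dS (c x) = c (dS x)
  c_dA : ∀ x, dA (c x) = c (dA x)
  c_inj : ∀ x, c x = 0 → x = 0
  rho_mem : ∀ {a b m x}, x ∈ G a b m → rho x ∈ G a b m
  rho_rho : ∀ x, rho (rho x) = rho x
  rho_c : ∀ x, rho (c x) = 0
  rho_dv : ∀ {a b m x}, x ∈ G a b (m + 1) → rho x = 0 → ∃ y ∈ G a b m, c y = x
  rho_dS : ∀ x, rho (dS x) = dS (rho x)
  rho_dA : ∀ x, rho (dA (rho x)) = rho (dA x)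
  pr_same : ∀ {a b m x}, x ∈ G a b m → pr a x = x
  pr_other : ∀ {a a' b m x}, a ≠ a' → x ∈ G a b m → pr a' x = 0

namespace BiK

variable {k F : Type*} [Field k] [AddCommGroup F] [Module k F] {e : ℕ} (K : BiK k F e)

/-- the Koszul differential of `P_d(U)` -/
def D (K : BiK k F e) : F →ₗ[k] F := K.dS + K.c ∘ₗ K.dA

lemma D_apply (x : F) : K.D x = K.dS x + K.c (K.dA x) := rfl

lemma DD (x : F) : K.D (K.D x) = 0 := by
  simp only [D_apply, map_add, K.dSdS, K.c_dS, K.c_dA, K.dAdA, K.anti, map_neg, map_zero]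
  abel

lemma D_c (x : F) : K.D (K.c x) = K.c (K.D x) := by
  simp only [D_apply, map_add, K.c_dS, K.c_dA]

/-- at most `s` letters outside `c A` -/
def FS (K : BiK k F e) (s p m : ℕ) : Submodule k F :=
  ⨆ (a : ℕ) (b : ℕ) (_ : a ≤ s) (_ : a + b = p), K.G a b m

lemma G_le_FS {s p m a b : ℕ} (ha : a ≤ s) (hp : a + b = p) : K.G a b m ≤ K.FS s p m :=
  le_iSup_of_le a (le_iSup_of_le b (le_iSup_of_le ha (le_iSup_of_le hp le_rfl)))

lemma FS_le {s p m : ℕ} {N : Submodule k F}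
    (h : ∀ a b, a ≤ s → a + b = p → K.G a b m ≤ N) : K.FS s p m ≤ N :=
  iSup_le fun a => iSup_le fun b => iSup_le fun ha => iSup_le fun hp => h a b ha hp

lemma FS_mono {s s' p m : ℕ} (h : s ≤ s') : K.FS s p m ≤ K.FS s' p m :=
  K.FS_le fun _ _ ha hp => K.G_le_FS (ha.trans h) hp

/-- decomposition of an element of `F_(s+1)` -/
lemma FS_succ {s p m : ℕ} {x : F} (hx : x ∈ K.FS (s + 1) p m) :
    ∃ y ∈ K.FS s p m, ∃ z, x = y + z ∧ (∀ b, s + 1 + b = p → z ∈ K.G (s + 1) b m) ∧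
      (p < s + 1 → z = 0) := by
  have h : K.FS (s + 1) p m ≤ K.FS s p m ⊔ (⨆ (b : ℕ) (_ : s + 1 + b = p), K.G (s + 1) b m) := by
    refine K.FS_le fun a b ha hp => ?_
    rcases Nat.lt_or_ge a (s + 1) with h1 | h1
    · exact (K.G_le_FS (Nat.lt_succ_iff.mp h1) hp).trans le_sup_left
    · have h2 : a = s + 1 := le_antisymm ha h1
      subst h2
      exact le_trans (le_iSup₂_of_le (f := fun (b : ℕ) (_ : s + 1 + b = p) => K.G (s + 1) b m) b hp
        le_rfl) le_sup_right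
  obtain ⟨y, hy, z, hz, rfl⟩ := Submodule.mem_sup.mp (h hx)
  refine ⟨y, hy, z, rfl, ?_, ?_⟩
  · intro b hb
    refine (iSup_le fun b' => iSup_le fun hb' => ?_ : (⨆ (b : ℕ) (_ : s + 1 + b = p),
      K.G (s + 1) b m) ≤ K.G (s + 1) b m) hz
    have : b' = b := by omega
    subst this
    exact le_rfl
  · intro hp
    have h3 : (⨆ (b : ℕ) (_ : s + 1 + b = p), K.G (s + 1) b m) ≤ ⊥ :=
      iSup_le fun b' => iSup_le fun hb' => by omega
    exact (Submodule.mem_bot k).mp (h3 hz)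

lemma FS_zero {p m : ℕ} : K.FS 0 p m = K.G 0 p m := by
  refine le_antisymm (K.FS_le fun a b ha hp => ?_) (K.G_le_FS le_rfl (zero_add p))
  have h1 : a = 0 := Nat.le_zero.mp ha
  subst h1
  have h2 : b = p := by omega
  subst h2
  exact le_rfl

lemma D_FS {s p m : ℕ} {x : F} (hx : x ∈ K.FS s (p + 1) m) : K.D x ∈ K.FS s p (m + (e + 1)) := by
  have h : K.FS s (p + 1) m ≤ (K.FS s p (m + (e + 1))).comap K.D := by
    refine K.FS_le fun a b ha hp y hy => ?_
    rw [Submodule.mem_comap, D_apply]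
    refine Submodule.add_mem _ ?_ ?_
    · rcases a with _ | a
      · rw [K.dS_zero hy]; exact Submodule.zero_mem _
      · exact K.G_le_FS (by omega) (by omega) (K.dS_mem hy)
    · rcases b with _ | b
      · rw [K.dA_zero hy, map_zero]; exact Submodule.zero_mem _
      · have := K.c_mem (K.dA_mem hy)
        rw [add_assoc] at this
        exact K.G_le_FS ha (by omega) this
  exact h hx

/-- the part with more than `s` letters of `S` vanishes on `F_s` -/
lemma pr_FS {s p m a : ℕ} (ha : s < a) {x : F} (hx : x ∈ K.FS s p m) : K.pr a x = 0 := by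
  have h : K.FS s p m ≤ LinearMap.ker (K.pr a) := by
    refine K.FS_le fun a' b ha' hp y hy => ?_
    rw [LinearMap.mem_ker]
    exact K.pr_other (by omega) hy
  exact LinearMap.mem_ker.mp (h hx)

/-- independence -/
lemma indep {s p m b m' : ℕ} {x y : F} (hx : x ∈ K.G (s + 1) b m') (hy : y ∈ K.FS s p m)
    (h : x + y = 0) : x = 0 := by
  have h1 := congrArg (K.pr (s + 1)) h
  rwa [map_add, K.pr_same hx, K.pr_FS (Nat.lt_succ_self s) hy, add_zero, map_zero] at h1

/-! ### exactness hypotheses -/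

/-- exactness of `dA` (coefficients in `P(U)`) at `G a b m` -/
def ExA (K : BiK k F e) (a b m : ℕ) : Prop :=
  ∀ x ∈ K.G a b m, K.dA x = 0 → ∃ y ∈ K.G a (b + 1) (m - e), K.dA y = x

/-- exactness of `dS` at `G a b m` mod `c` -/
def ExS (K : BiK k F e) (a b m : ℕ) : Prop :=
  ∀ x ∈ K.G a b m, K.rho x = x → K.dS x = 0 →
    ∃ y ∈ K.G (a + 1) b (m - (e + 1)), K.rho y = y ∧ K.dS y = x

/-- exactness of `rho dA` at `G a b m` mod `c` -/
def ExR (K : BiK k F e) (a b m : ℕ) : Prop :=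
  ∀ x ∈ K.G a b m, K.rho x = x → K.rho (K.dA x) = 0 →
    ∃ y ∈ K.G a (b + 1) (m - e), K.rho y = y ∧ K.rho (K.dA y) = x

/-- **Lemma Z** (helper34): bi-cycles mod `c` are `dS` of bi-cycles. -/
theorem lemmaZ : ∀ (s i m : ℕ), 2 * e + 1 ≤ m →
    (∀ j ≤ s, K.ExR (s - j) (i + j) (m + j)) →
    (∀ j ≤ s, K.ExS (s - j) (i + 1 + j) (m - e + j)) →
    ∀ x ∈ K.G s i m, K.rho x = x → K.dS x = 0 → K.rho (K.dA x) = 0 →
      ∃ y ∈ K.G (s + 1) i (m - (e + 1)), K.rho y = y ∧ K.rho (K.dA y) = 0 ∧ K.dS y = x := by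
  intro s
  induction s with
  | zero =>
    intro i m hm h1 h2 x hx hr hS hA
    obtain ⟨w, hw, hwr, hwx⟩ := h1 0 le_rfl x hx hr hA
    simp only [Nat.sub_self, Nat.add_zero] at hw
    obtain ⟨u, hu, hur, huw⟩ := h2 0 le_rfl w (by simpa using hw) hwr (K.dS_zero hw)
    simp only [Nat.sub_self, Nat.add_zero] at hu
    have hu2 : K.dA (-u) ∈ K.G 1 i (m - (e + 1)) := by
      have := K.dA_mem (Submodule.neg_mem _ hu)
      have e1 : m - e - (e + 1) + e = m - (e + 1) := by omega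
      rwa [e1] at this
    refine ⟨K.rho (K.dA (-u)), K.rho_mem hu2, K.rho_rho _, ?_, ?_⟩
    · rw [K.rho_dA, K.dAdA, map_zero]
    · rw [← K.rho_dS, K.anti, map_neg, map_neg, map_neg, map_neg, neg_neg, huw, hwx]
  | succ s ih =>
    intro i m hm h1 h2 x hx hr hS hA
    obtain ⟨w, hw, hwr, hwx⟩ := h1 0 (Nat.zero_le _) x hx hr hA
    simp only [Nat.sub_zero, Nat.add_zero] at hw
    have hw1 : K.dS w ∈ K.G s (i + 1) (m + 1) := by
      have := K.dS_mem hw
      have e1 : m - e + (e + 1) = m + 1 := by omega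
      rwa [e1] at this
    obtain ⟨v, hv, hvr, hvA, hvS⟩ := ih (i + 1) (m + 1) (by omega)
      (fun j hj => by
        have := h1 (j + 1) (by omega)
        have e1 : s + 1 - (j + 1) = s - j := by omega
        have e2 : i + (j + 1) = i + 1 + j := by omega
        have e3 : m + (j + 1) = m + 1 + j := by omega
        rwa [e1, e2, e3] at this)
      (fun j hj => by
        have := h2 (j + 1) (by omega)
        have e1 : s + 1 - (j + 1) = s - j := by omega
        have e2 : i + 1 + (j + 1) = i + 1 + 1 + j := by omega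
        have e3 : m - e + (j + 1) = m + 1 - e + j := by omega
        rwa [e1, e2, e3] at this)
      (K.dS w) hw1 (by rw [K.rho_dS, hwr]) (K.dSdS w)
      (by
        have : K.dA (K.dS w) = - K.dS (K.dA w) := by rw [K.anti, neg_neg]
        rw [this, map_neg, K.rho_dS, hwx, hS, neg_zero])
    have e4 : m + 1 - (e + 1) = m - e := by omega
    rw [e4] at hv
    obtain ⟨u, hu, hur, huw⟩ := h2 0 (Nat.zero_le _) (w - v)
      (by simpa using Submodule.sub_mem _ hw hv) (by rw [map_sub, hwr, hvr])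
      (by rw [map_sub, hvS, sub_self])
    simp only [Nat.sub_zero, Nat.add_zero] at hu
    have hu2 : K.dA (-u) ∈ K.G (s + 1 + 1) i (m - (e + 1)) := by
      have := K.dA_mem (Submodule.neg_mem _ hu)
      have e1 : m - e - (e + 1) + e = m - (e + 1) := by omega
      rwa [e1] at this
    refine ⟨K.rho (K.dA (-u)), K.rho_mem hu2, K.rho_rho _, ?_, ?_⟩
    · rw [K.rho_dA, K.dAdA, map_zero]
    · rw [← K.rho_dS, K.anti, map_neg, map_neg, map_neg, map_neg, neg_neg, huw, map_sub, map_sub,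
        hwx, hvA, sub_zero]

end BiK

end Pool.Agent.H80.OP
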