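import Pool.Agent.H80.OP.Sl2

set_option autoImplicit false
set_option linter.unusedSectionVars false

/-!
# Full Ottaviani-Paoletti, part (T): the recursion step
-/

open MvPolynomial

namespace Pool.Agent.H80.OP

open Pool.Agent.H27.OP Pool.Agent.H20.OPF Pool.Agent.H12.OP Pool.Agent.H40.OP

variable {σ k F : Type} [Fintype σ] [Field k] [AddCommGroup F] [Module k F] {e : ℕ}
variable {S : Fk σ k (Module.End k F) (e + 1)} {A : Gr S} {o : σ} {K : BiK k F e}

lemma eig_big [CharZero k] (C : Cmp S A o K) {s b m j : ℕ} (hj : b < j) {y : F}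
    (hy : y ∈ Cl K s b m) (h : Ng S (g2 k o) y = (j : k) • y) : y = 0 := by
  obtain ⟨h1, h2, -⟩ := (mem_Cl' C).mp hy
  have h3 := N_sum A o h1
  rw [h2, h] at h3
  obtain ⟨M, hM⟩ := Ng_fin (S := S) A (fun μ => if μ o = 1 then 1 else 0) (s + b) m
  rw [← g1_nat] at hM
  refine dp_neg (Ng S (g1 k o)) (t := j - b - 1) (M := M) ?_ (hM y h1)
  have h5 : Ng S (g1 k o) y = ((s + b : ℕ) : k) • y - (s : k) • y - (j : k) • y := by
    rw [← h3]; abel
  rw [h5, ← sub_smul, ← sub_smul]
  congr 1
  rw [Nat.sub_sub, Nat.cast_sub (by omega)]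
  push_cast
  ring

lemma Ga_J {s i m : ℕ} {z : F} (h : z ∈ Ga A o s i m) :
    ∀ μ ∈ Mo σ (e + 1), 2 ≤ μ o → S.J μ z = 0 := ((mem_Ga A o).mp h).1.2.2.1

lemma no_o [CharZero k] {q : MvPolynomial σ k} (h : pderiv o q = 0) {ν : σ →₀ ℕ}
    (hν : coeff ν q ≠ 0) : ν o = 0 := by
  have h1 : dg (fun μ => (μ o : k)) q = 0 := by
    have h2 : dg (fun μ => (μ o : k)) = Fk.cpd (X o) o := by
      refine (basisMonomials σ k).ext fun μ => ?_
      rw [coe_basisMonomials]
      show dg _ (monomial μ (1 : k)) = Fk.cpd (X o) o (monomial μ (1 : k))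
      rw [dg_mon, Fk.cpd_apply, X_pd_mon]
    rw [h2, Fk.cpd_apply, h, mul_zero]
  have h2 := congrArg (coeff ν) h1
  rw [coeff_dg, coeff_zero] at h2
  exact Nat.cast_eq_zero.mp ((mul_eq_zero.mp h2).resolve_right hν)

lemma rho_q (C : Cmp S A o K) {d : ℕ} {q : MvPolynomial σ k} (hq : q.IsHomogeneous d)
    (h : ∀ ν, coeff ν q ≠ 0 → ν o = 0) (ω : F) :
    K.rho (S.m q ω) = S.m q (K.rho ω) := by
  let L : MvPolynomial σ k →ₗ[k] F :=
    { toFun := fun q => K.rho (S.m q ω) - S.m q (K.rho ω)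
      map_add' := fun a b => by
        rw [map_add, LinearMap.add_apply, LinearMap.add_apply, map_add]; abel
      map_smul' := fun t a => by
        rw [map_smul, LinearMap.smul_apply, LinearMap.smul_apply, map_smul, RingHom.id_apply,
          smul_sub] }
  have h1 : L q = 0 := by
    refine lin_zero (d := d) L hq fun ν _ hc => ?_
    show K.rho (S.m (monomial ν 1) ω) - S.m (monomial ν 1) (K.rho ω) = 0
    rw [rho_mon' C (h ν hc), sub_self]
  exact sub_eq_zero.mp h1

/-- the step for the eigenvalue `j` -/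
theorem claim_step [CharZero k] (C : Cmp S A o K) {p s i j : ℕ} (hs : 2 ≤ s)
    (hp : p ≤ 3 * e) (hsb : s + (i + j) = p) (Sh : ShapeStatement A o) (Q : Ph C p s (i + j))
    (hj : ∀ y ∈ Cl K s (i + j) (2 * e + 2), Ng S (g2 k o) y = ((j + 1 : ℕ) : k) • y → Q.φ y = 0) :
    ∀ y ∈ Cl K s (i + j) (2 * e + 2), Ng S (g2 k o) y = (j : k) • y → Q.φ y = 0 := by
  let N : Submodule k F :=
    { carrier := {z | z ∈ Ga A o s i (2 * e + 2) ∧ ∀ β ∈ Wj S o j, Q.φ (β z) = 0}
      add_mem' := by
        rintro x y ⟨h1, h2⟩ ⟨g1, g2⟩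
        exact ⟨add_mem h1 g1, fun β hβ => by rw [map_add, map_add, h2 β hβ, g2 β hβ, add_zero]⟩
      zero_mem' := ⟨zero_mem _, fun β _ => by rw [map_zero, map_zero]⟩
      smul_mem' := by
        rintro t x ⟨h1, h2⟩
        exact ⟨Submodule.smul_mem _ _ h1, fun β hβ => by
          rw [map_smul, map_smul, h2 β hβ, smul_zero]⟩ }
  have hN : ∀ z, z ∈ N ↔ z ∈ Ga A o s i (2 * e + 2) ∧ ∀ β ∈ Wj S o j, Q.φ (β z) = 0 :=
    fun _ => Iff.rfl
  have hle : Ga A o s i (2 * e + 2) ≤ N := by
    refine Sh s i hs (by omega) N ?_ ?_ ?_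
    · intro x y hx hy z hz
      obtain ⟨h1, h2⟩ := (hN z).mp hz
      obtain ⟨h3, h4⟩ := (Ga_Cl C).mp h1
      have h5 : Ng S (g2 k o) (S.D (X x) y z) = 0 := by
        have h6 := app_eq (Ng_Dxy S (g2 k o) x y (fun μ _ _ => by
          unfold g2; rw [mv_ne hx hy])) z
        rw [Module.End.mul_apply, Module.End.mul_apply, h4, map_zero] at h6
        exact h6
      refine (hN _).mpr ⟨(Ga_Cl C).mpr ⟨Cl_Dxy C hx hy h3, h5⟩, fun β hβ => ?_⟩
      have h6 := Wj_D hx hy j β hβ
      have h7 : β (S.D (X x) y z) = S.D (X x) y (β z) - (S.D (X x) y * β - β * S.D (X x) y) z := by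
        rw [LinearMap.sub_apply, Module.End.mul_apply, Module.End.mul_apply]; abel
      rw [h7, map_sub, h2 _ h6, sub_zero, Q.xy x y hx hy _ (Wj_Cl C h3 j β hβ), h2 β hβ, map_zero]
    · intro z hz x hx w hw hwz
      refine (hN z).mpr ⟨hz, fun β hβ => ?_⟩
      obtain ⟨h3, h4⟩ := (Ga_Cl C).mp hz
      have hz' : z ∈ Ga A o s i (2 * e + 2) := hz
      refine wt_zero C Q rfl hj hx (w := w) (by omega) (Wj_Cl C h3 j β hβ) ?_ ?_
      · have h6 := app_eq (Wj_N j β hβ) z
        rw [LinearMap.add_apply, Module.End.mul_apply, Module.End.mul_apply, h4, map_zero,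
          zero_add, LinearMap.smul_apply] at h6
        exact h6
      · have h6 := app_eq (Wj_DQ x j β hβ) z
        rw [Module.End.mul_apply, Module.End.mul_apply] at h6
        rw [h6]
        have h7 : DQ S o x z = (w : k) • z := by
          unfold DQ
          rw [LinearMap.sub_apply, hwz]
          have h8 : Ng S (fun μ => g2 k o μ * (μ x : k)) z = 0 := by
            rw [Ng_apply]
            refine Finset.sum_eq_zero fun μ hμ => ?_
            by_cases h9 : 2 ≤ μ o
            · rw [Ga_J hz' μ hμ h9, map_zero, smul_zero]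
            · unfold g2
              rw [if_neg h9, zero_mul, zero_smul]
          rw [h8, sub_zero]
        rw [h7, map_smul]
    · intro q hq hqo z hz
      have hno : ∀ ν, coeff ν q ≠ 0 → ν o = 0 := fun ν hν => no_o hqo hν
      obtain ⟨h3, h4⟩ := (Ga_Cl C).mp hz
      obtain ⟨i1, i2, i3, i4, i5⟩ := (mem_Cl' C).mp h3
      have h5 : S.m q z ∈ Cl K s i (2 * e + 2) := by
        refine (mem_Cl' C).mpr ⟨?_, ?_, by rw [rho_q C hq hno, i3], ?_, ?_⟩
        · have := A.Gm hq i1
          rwa [show e + 1 + (e + 1) = 2 * e + 2 by ring] at this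
        · have h6 := app_eq (Ng_m S (g0 k o) q) z
          rw [Module.End.mul_apply, Module.End.mul_apply, i2, map_smul] at h6
          exact h6
        · have h6 := app_eq (dl_m S (dg (g0 k o)) q) z
          rw [Module.End.mul_apply, Module.End.mul_apply, i4, map_zero] at h6
          exact h6
        · have h6 := app_eq (dl_m S (de1 k o) q) z
          rw [Module.End.mul_apply, Module.End.mul_apply, i5, map_zero] at h6
          exact h6
      have h6 : Ng S (g2 k o) (S.m q z) = 0 := by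
        have h6 := app_eq (Ng_m S (g2 k o) q) z
        rw [Module.End.mul_apply, Module.End.mul_apply, h4, map_zero] at h6
        exact h6
      refine (hN _).mpr ⟨(Ga_Cl C).mpr ⟨h5, h6⟩, fun β hβ => ?_⟩
      have h7 : β (S.m q z) = S.m q (β z) := by
        have := app_eq (Wj_m q j β hβ) z
        rw [Module.End.mul_apply, Module.End.mul_apply] at this
        exact this.symm
      have h8 : β z ∈ Cl K s (i + j) (e + 1) := Wj_Cl C h3 j β hβ
      obtain ⟨j1, j2, j3, j4, j5⟩ := (mem_Cl' C).mp h8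
      have k1 : S.Ee q (β z) ∈ K.G (s + 1) (i + j) (e + 1) := by
        refine G_of C ?_ ?_
        · have := Ee_mem A j1 q
          rwa [show s + (i + j) + 1 = s + 1 + (i + j) by ring] at this
        · have h9 := app_eq (Ng_Ee S (g0 k o) hq (t := 1) (fun ν _ hc => by
            unfold g0; rw [if_pos (hno ν hc)])) (β z)
          rw [one_smul, LinearMap.add_apply, Module.End.mul_apply, Module.End.mul_apply, j2,
            map_smul] at h9
          rw [h9]
          push_cast
          rw [add_smul, one_smul]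
      have k2 : K.rho (S.Ee q (β z)) = S.Ee q (β z) := by rw [rho_Ee C, j3]
      have k3 : de1 k o q = 0 := by
        refine lin_zero (d := e + 1) (de1 k o) hq fun ν _ hc => ?_
        exact de1_mon (by rw [hno ν hc]; omega)
      have k4 : dg (g0 k o) q = q := by
        refine MvPolynomial.ext _ _ fun ν => ?_
        rw [coeff_dg]
        by_cases hc : coeff ν q = 0
        · rw [hc, mul_zero]
        · unfold g0
          rw [if_pos (hno ν hc), one_mul]
      have k5 : K.rho (K.dA (S.Ee q (β z))) = 0 := by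
        rw [rho_dA_eq C, k2, d1_eq']
        have h9 := app_eq (dl_Ee S (de1 k o) hq) (β z)
        rw [k3, map_zero, zero_sub, Module.End.mul_apply, LinearMap.neg_apply,
          Module.End.mul_apply, j5, map_zero, neg_zero] at h9
        exact h9
      have k6 : K.dS (S.Ee q (β z)) = S.m q (β z) := by
        rw [C.dS_eq, dS_eq']
        have h9 := app_eq (dl_Ee S (dg (g0 k o)) hq) (β z)
        rw [k4, Module.End.mul_apply, LinearMap.sub_apply, Module.End.mul_apply, j4, map_zero,
          sub_zero] at h9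
        exact h9
      have k7 := Q.bd _ k1 k5
      rw [k6, rho_q C hq hno, j3] at k7
      rw [h7]
      exact k7
  intro y hy h
  have h1 := Y_span C s i (2 * e + 2) j y hy h
  refine Submodule.span_induction (p := fun u _ => Q.φ u = 0) ?_ (map_zero _)
    (fun a b _ _ ha hb => by rw [map_add, ha, hb, add_zero])
    (fun t a _ ha => by rw [map_smul, ha, smul_zero]) h1
  rintro u ⟨β, hβ, z, hz, rfl⟩
  exact ((hN z).mp (hle hz)).2 β hβ

/-- `φ = 0` -/
theorem phi_zero [CharZero k] (C : Cmp S A o K) {p s b : ℕ} (hs : 2 ≤ s)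
    (hp : p ≤ 3 * e) (hsb : s + b = p) (Sh : ShapeStatement A o) (Q : Ph C p s b) :
    ∀ y ∈ Cl K s b (2 * e + 2), Q.φ y = 0 := by
  have key : ∀ t j : ℕ, j + t = b + 1 → ∀ y ∈ Cl K s b (2 * e + 2),
      Ng S (g2 k o) y = (j : k) • y → Q.φ y = 0 := by
    intro t
    induction t with
    | zero =>
      intro j hj y hy h
      rw [eig_big C (by omega) hy h, map_zero]
    | succ t ih =>
      intro j hj
      obtain ⟨i, hi⟩ : ∃ i, i + j = b := ⟨b - j, by omega⟩
      subst hi
      exact claim_step C hs hp hsb Sh Q (ih (j + 1) (by omega))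
  intro y hy
  obtain ⟨M, hM⟩ := Ng_fin (S := S) A (fun μ => if 2 ≤ μ o then 1 else 0) (s + b) (2 * e + 2)
  rw [← g2_nat] at hM
  have hst : ∀ v ∈ Cl K s b (2 * e + 2), Ng S (g2 k o) v ∈ Cl K s b (2 * e + 2) := by
    intro v hv
    refine Cl_Ng C (g2 k o) (t0 := 0) (t1 := 0) ?_ ?_ hv
    · intro μ _ h; unfold g2; rw [if_neg (by omega)]
    · intro μ _ h; unfold g2; rw [if_neg (by omega)]
  have h1 := eig1 (Ng S (g2 k o)) (Cl K s b (2 * e + 2)) hst M y hy
    (hM y ((mem_Cl' C).mp hy).1)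
  refine Submodule.span_induction (p := fun u _ => Q.φ u = 0) ?_ (map_zero _)
    (fun a b _ _ ha hb => by rw [map_add, ha, hb, add_zero])
    (fun t a _ ha => by rw [map_smul, ha, smul_zero]) h1
  rintro u ⟨hu, n, hn⟩
  rcases Nat.lt_or_ge b n with h2 | h2
  · rw [eig_big C h2 hu hn, map_zero]
  · exact key (b + 1 - n) n (by omega) u hu hn

/-- all levels -/
theorem levels [CharZero k] (C : Cmp S A o K) {p : ℕ} (H : InpK K p) (hp : p ≤ 3 * e)
    (Sh : ShapeStatement A o) : ∀ s : ℕ, ∀ Θ ∈ K.FS s p (2 * e + 2), K.D Θ = 0 →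
      Θ ∈ LinearMap.range K.D := by
  intro s
  induction s with
  | zero =>
    intro Θ h hD
    obtain ⟨y, _, hy⟩ := H.thm1 (by omega) (K.FS_mono (Nat.zero_le 1) h) hD
    exact ⟨y, hy⟩
  | succ s ih =>
    rcases Nat.eq_zero_or_pos s with h0 | h0
    · subst h0
      intro Θ h hD
      obtain ⟨y, _, hy⟩ := H.thm1 (by omega) h hD
      exact ⟨y, hy⟩
    · rcases Nat.lt_or_ge p (s + 1) with h1 | h1
      · intro Θ h hD
        obtain ⟨y, hy, z, rfl, -, hz⟩ := K.FS_succ h
        rw [hz h1, add_zero] at hD ⊢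
        exact ih y hy hD
      · obtain ⟨b, hb⟩ : ∃ b, s + 1 + b = p := ⟨p - (s + 1), by omega⟩
        obtain ⟨Q⟩ := exists_Ph C H hp h0 hb ih
        exact Q.fin (phi_zero C (by omega) hp hb Sh Q)

lemma G_le_FS' [CharZero k] (C : Cmp S A o K) {p m : ℕ} : A.G p m ≤ K.FS p p m := by
  intro ω hω
  obtain ⟨M, hM⟩ := Ng_fin (S := S) A (fun μ => if μ o = 0 then 1 else 0) p m
  have g0n : (g0 k o : (σ →₀ ℕ) → k) = fun μ => ((if μ o = 0 then 1 else 0 : ℕ) : k) := by
    funext μ
    unfold g0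
    split_ifs <;> simp
  rw [← g0n] at hM
  have h1 := eig1 (Ng S (g0 k o)) (A.G p m) (fun v hv => QT_mem A _ hv) M ω hω (hM ω hω)
  refine (Submodule.span_le.mpr ?_) h1
  rintro v ⟨hv, n, hn⟩
  show v ∈ K.FS p p m
  rcases Nat.lt_or_ge p n with h2 | h2
  · have h3 : v = 0 := by
      obtain ⟨M', hM'⟩ := Ng_fin (S := S) A (fun μ => if μ o = 0 then 0 else 1) p m
      refine dp_neg _ (t := n - p - 1) (M := M') ?_ (hM' v hv)
      have h5 := Ng_one A hv
      have h6 : Ng S (fun _ => (1 : k)) v = Ng S (g0 k o) v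
          + Ng S (fun μ => ((if μ o = 0 then 0 else 1 : ℕ) : k)) v := by
        rw [← Ng_add_apply]
        congr 2
        funext μ
        unfold g0
        split_ifs <;> simp
      rw [h6, hn] at h5
      have h7 : Ng S (fun μ => ((if μ o = 0 then 0 else 1 : ℕ) : k)) v
          = (p : k) • v - (n : k) • v := by rw [← h5]; abel
      rw [h7, ← sub_smul]
      congr 1
      rw [Nat.sub_sub, Nat.cast_sub (by omega)]
      push_cast
      ring
    rw [h3]; exact zero_mem _
  · refine K.G_le_FS h2 (show n + (p - n) = p by omega) (G_of C ?_ hn)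
    rwa [show n + (p - n) = p by omega]

/-- **The recursion.** -/
theorem claim_all [CharZero k] (C : Cmp S A o K) {p : ℕ} (H : InpK K p)
    (Sh : ShapeStatement A o) (hp : p ≤ 3 * e) :
    ∀ ω ∈ A.G p (2 * e + 2), S.del ω = 0 → ω ∈ LinearMap.range S.del := by
  intro ω h hD
  rw [← KD_eq C] at hD ⊢
  exact levels C H hp Sh p ω (G_le_FS' C h) hD

end Pool.Agent.H80.OP
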