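import Pool.Agent.H80.OP.Wts
import Pool.Agent.H12.OP.TDefs

set_option autoImplicit false
set_option linter.unusedSectionVars false

/-!
# Full Ottaviani-Paoletti, part (T): operators on the closed leading terms
-/

open MvPolynomial

namespace Pool.Agent.H80.OP

open Pool.Agent.H27.OP Pool.Agent.H20.OPF Pool.Agent.H12.OP

section maps

variable {σ k : Type} [Fintype σ] [Field k]

/-- linear map given on the monomials -/
noncomputable def lmk (f : (σ →₀ ℕ) → MvPolynomial σ k) : MvPolynomial σ k →ₗ[k] MvPolynomial σ k :=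
  (basisMonomials σ k).constr k f

lemma lmk_mon (f : (σ →₀ ℕ) → MvPolynomial σ k) (μ : σ →₀ ℕ) :
    lmk f (monomial μ (1 : k)) = f μ := by
  unfold lmk
  have h := (basisMonomials σ k).constr_basis k f μ
  rwa [coe_basisMonomials] at h

/-- indicators of the three types of letters -/
def g0 (k : Type) [Field k] (o : σ) (μ : σ →₀ ℕ) : k := if μ o = 0 then 1 else 0

def g1 (k : Type) [Field k] (o : σ) (μ : σ →₀ ℕ) : k := if μ o = 1 then 1 else 0

def g2 (k : Type) [Field k] (o : σ) (μ : σ →₀ ℕ) : k := if 2 ≤ μ o then 1 else 0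

lemma g_sum (o : σ) (μ : σ →₀ ℕ) : g0 k o μ + g1 k o μ + g2 k o μ = 1 := by
  unfold g0 g1 g2
  rcases Nat.lt_or_ge (μ o) 2 with h | h
  · rcases Nat.lt_or_ge (μ o) 1 with h1 | h1
    · rw [if_pos (by omega), if_neg (by omega), if_neg (by omega)]; ring
    · rw [if_neg (by omega), if_pos (by omega), if_neg (by omega)]; ring
  · rw [if_neg (by omega), if_neg (by omega), if_pos h]; ring

/-- `x^μ ↦ x^μ / x_o` for `μ o = 1` -/
noncomputable def de1 (k : Type) [Field k] (o : σ) : MvPolynomial σ k →ₗ[k] MvPolynomial σ k :=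
  lmk fun μ => if μ o = 1 then monomial (μ - Finsupp.single o 1) 1 else 0

end maps

variable {σ k F : Type} [Fintype σ] [Field k] [AddCommGroup F] [Module k F] {e : ℕ}

section eqs

variable {O : Type} [Ring O] [Algebra k O] {d : ℕ} (S : Fk σ k O d) (o : σ)

lemma N0_eq : N0 S o = Ng S (g0 k o) := by
  unfold N0
  rw [Ng_eq, Finset.sum_filter]
  refine Finset.sum_congr rfl fun μ _ => ?_
  unfold g0
  split_ifs
  · rw [one_smul]
  · rw [zero_smul]

lemma dS_eq' : dS S o = dl S (dg (g0 k o)) := by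
  unfold dS dl
  rw [Finset.sum_filter]
  refine Finset.sum_congr rfl fun μ _ => ?_
  rw [dg_mon]
  unfold g0
  split_ifs
  · rw [one_smul]
  · rw [zero_smul, map_zero, zero_mul]

lemma d1_eq' : d1 S o = dl S (de1 k o) := by
  unfold d1 dl de1
  rw [Finset.sum_filter]
  refine Finset.sum_congr rfl fun μ _ => ?_
  rw [lmk_mon]
  split_ifs
  · rfl
  · rw [map_zero, zero_mul]

end eqs

variable {S : Fk σ k (Module.End k F) (e + 1)} {A : Gr S} {o : σ} {K : BiK k F e}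

lemma app_eq {L L' : Module.End k F} (h : L = L') (ω : F) : L ω = L' ω := by rw [h]

lemma QT_mem (A : Gr S) (T : MvPolynomial σ k →ₗ[k] MvPolynomial σ k) {p m : ℕ} {ω : F}
    (h : ω ∈ A.G p m) : QT S T ω ∈ A.G p m := by
  unfold QT
  rw [LinearMap.sum_apply]
  refine Submodule.sum_mem _ fun μ _ => ?_
  rw [Module.End.mul_apply]
  rcases p with _ | p
  · rw [A.GJ0 h, map_zero]; exact zero_mem _
  · exact Ee_mem A (A.GJ h) _

lemma rho_Ee (C : Cmp S A o K) (u : MvPolynomial σ k) (ω : F) :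
    K.rho (S.Ee u ω) = S.Ee u (K.rho ω) := by
  rw [S.Ee_apply, LinearMap.sum_apply, LinearMap.sum_apply, map_sum]
  refine Finset.sum_congr rfl fun μ _ => ?_
  rw [LinearMap.smul_apply, LinearMap.smul_apply, map_smul, C.rho_E]

lemma rho_J' (C : Cmp S A o K) (μ : σ →₀ ℕ) (ω : F) :
    K.rho (S.J μ ω) = S.J μ (K.rho ω) := by
  rw [C.rho_eq, C.rho_eq, A.rho_J]

lemma rho_QT (C : Cmp S A o K) (T : MvPolynomial σ k →ₗ[k] MvPolynomial σ k) (ω : F) :
    K.rho (QT S T ω) = QT S T (K.rho ω) := by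
  unfold QT
  rw [LinearMap.sum_apply, LinearMap.sum_apply, map_sum]
  refine Finset.sum_congr rfl fun μ _ => ?_
  rw [Module.End.mul_apply, Module.End.mul_apply, rho_Ee C, rho_J' C]

lemma rho_mX (C : Cmp S A o K) (ω : F) : K.rho (S.m (X o) ω) = 0 := by
  rw [C.rho_eq, A.rho_X]

lemma rho_mon' (C : Cmp S A o K) {μ : σ →₀ ℕ} (h : μ o = 0) (ω : F) :
    K.rho (S.m (monomial μ 1) ω) = S.m (monomial μ 1) (K.rho ω) := by
  rw [C.rho_eq, C.rho_eq, A.rho_mon o μ ω h]

lemma rho_d1 (C : Cmp S A o K) (ω : F) : K.rho (d1 S o ω) = d1 S o (K.rho ω) := by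
  unfold d1
  rw [LinearMap.sum_apply, LinearMap.sum_apply, map_sum]
  refine Finset.sum_congr rfl fun μ hμ => ?_
  rw [Module.End.mul_apply, Module.End.mul_apply, rho_mon' C, rho_J' C]
  have := (Finset.mem_filter.mp hμ).2
  simp only [Finsupp.coe_tsub, Pi.sub_apply, Finsupp.single_eq_same, this]

lemma rho_dA_eq (C : Cmp S A o K) (ω : F) : K.rho (K.dA ω) = d1 S o (K.rho ω) := by
  rw [C.dA_eq, dA_eq_d1_d2, LinearMap.add_apply, map_add, Module.End.mul_apply, rho_mX C, add_zero,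
    rho_d1 C]

/-- closed leading terms in terms of `A` -/
lemma mem_Cl' (C : Cmp S A o K) {s b m : ℕ} {y : F} : y ∈ Cl K s b m ↔
    y ∈ A.G (s + b) m ∧ Ng S (g0 k o) y = (s : k) • y ∧ K.rho y = y ∧
      dl S (dg (g0 k o)) y = 0 ∧ dl S (de1 k o) y = 0 := by
  rw [mem_Cl, C.G_iff, C.dS_eq, rho_dA_eq C, N0_eq, dS_eq', d1_eq']
  constructor
  · rintro ⟨⟨h1, h2⟩, h3, h4, h5⟩
    rw [h3] at h5
    exact ⟨h1, h2, h3, h4, h5⟩
  · rintro ⟨h1, h2, h3, h4, h5⟩
    refine ⟨⟨h1, h2⟩, h3, h4, ?_⟩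
    rwa [h3]

/-- letters `μ o ≥ 2` as values -/
def ImW (d : ℕ) (o : σ) (T : MvPolynomial σ k →ₗ[k] MvPolynomial σ k) : Prop :=
  ∀ μ ∈ Mo σ d, ∀ ν ∈ Mo σ d, coeff ν (T (monomial μ 1)) ≠ 0 → 2 ≤ ν o ∧ 1 ≤ μ o

lemma ImW.dS {d : ℕ} {T : MvPolynomial σ k →ₗ[k] MvPolynomial σ k} (hT : HD d T)
    (h : ImW d o T) : ∀ μ ∈ Mo σ d, (dg (g0 k o) ∘ₗ T) (monomial μ 1) = 0 := by
  intro μ hμ
  refine MvPolynomial.ext _ _ fun ν => ?_
  rw [LinearMap.comp_apply, coeff_dg, coeff_zero]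
  by_cases hc : coeff ν (T (monomial μ 1)) = 0
  · rw [hc, mul_zero]
  · have hν : ν ∈ Mo σ d := mem_Mo_of_coeff (hT μ hμ) hc
    have := (h μ hμ ν hν hc).1
    unfold g0
    rw [if_neg (by omega), zero_mul]

lemma lin_zero {W : Type} [AddCommMonoid W] [Module k W] {d : ℕ}
    (L : MvPolynomial σ k →ₗ[k] W) {p : MvPolynomial σ k} (hp : p.IsHomogeneous d)
    (h : ∀ ν ∈ Mo σ d, coeff ν p ≠ 0 → L (monomial ν 1) = 0) : L p = 0 := by
  rw [← sum_coeff L hp]
  refine Finset.sum_eq_zero fun ν hν => ?_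
  by_cases hc : coeff ν p = 0
  · rw [hc, zero_smul]
  · rw [h ν hν hc, smul_zero]

lemma ImW.d1 {d : ℕ} {T : MvPolynomial σ k →ₗ[k] MvPolynomial σ k} (hT : HD d T)
    (h : ImW d o T) : ∀ μ ∈ Mo σ d, (de1 k o ∘ₗ T) (monomial μ 1) = 0 := by
  intro μ hμ
  refine lin_zero (d := d) (de1 k o) (hT μ hμ) fun ν hν hc => ?_
  have := (h μ hμ ν hν hc).1
  unfold de1
  rw [lmk_mon, if_neg (by omega)]

/-- second quantised maps with values in the letters `μ o ≥ 2` -/
lemma Cl_QT (C : Cmp S A o K) {T : MvPolynomial σ k →ₗ[k] MvPolynomial σ k} (hT : HD (e + 1) T)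
    (h : ImW (e + 1) o T) {s b m : ℕ} {y : F} (hy : y ∈ Cl K s b m) :
    QT S T y ∈ Cl K s b m := by
  rw [mem_Cl' C] at hy ⊢
  obtain ⟨h1, h2, h3, h4, h5⟩ := hy
  refine ⟨QT_mem A T h1, ?_, by rw [rho_QT C, h3], ?_, ?_⟩
  · have h6 := app_eq (Ng_QT S (g0 k o) hT (t := 0) (by
      intro μ hμ ν hν hc
      obtain ⟨h7, h8⟩ := h μ hμ ν hν hc
      unfold g0
      rw [if_neg (by omega), if_neg (by omega), add_zero])) y
    rw [zero_smul, add_zero, Module.End.mul_apply, Module.End.mul_apply, h2, map_smul] at h6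
    exact h6
  · have h6 := app_eq (QT_dl S hT (dg (g0 k o))) y
    have h7 : dl S (dg (g0 k o) ∘ₗ T) = dl S (0 : MvPolynomial σ k →ₗ[k] MvPolynomial σ k) :=
      dl_congr S (h.dS hT)
    rw [h7, dl_zero, sub_zero, Module.End.mul_apply, Module.End.mul_apply, h4, map_zero] at h6
    exact h6.symm
  · have h6 := app_eq (QT_dl S hT (de1 k o)) y
    have h7 : dl S (de1 k o ∘ₗ T) = dl S (0 : MvPolynomial σ k →ₗ[k] MvPolynomial σ k) :=
      dl_congr S (h.d1 hT)
    rw [h7, dl_zero, sub_zero, Module.End.mul_apply, Module.End.mul_apply, h5, map_zero] at h6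
    exact h6.symm

/-- diagonal operators -/
lemma Cl_Ng (C : Cmp S A o K) (g : (σ →₀ ℕ) → k) {t0 t1 : k}
    (h0 : ∀ μ ∈ Mo σ (e + 1), μ o = 0 → g μ = t0)
    (h1 : ∀ μ ∈ Mo σ (e + 1), μ o = 1 → g μ = t1) {s b m : ℕ} {y : F} (hy : y ∈ Cl K s b m) :
    Ng S g y ∈ Cl K s b m := by
  rw [mem_Cl' C] at hy ⊢
  obtain ⟨i1, i2, i3, i4, i5⟩ := hy
  refine ⟨QT_mem A _ i1, ?_, by unfold Ng; rw [rho_QT C, i3], ?_, ?_⟩
  · classical
    have h6 := app_eq (Ng_QT S (g0 k o) (HD_dg (d := e + 1) g) (t := 0) (by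
      intro μ _ ν _ hc
      rw [dg_mon, coeff_smul, coeff_monomial] at hc
      by_cases h : μ = ν
      · rw [h, add_zero]
      · rw [if_neg h, smul_zero] at hc; exact absurd rfl hc)) y
    rw [zero_smul, add_zero, Module.End.mul_apply, Module.End.mul_apply, i2, map_smul] at h6
    exact h6
  · have h6 := app_eq (Ng_dl S g (π := dg (g0 k o)) (t := t0) (by
      intro μ hμ
      rw [dg_mon]
      unfold g0
      by_cases h : μ o = 0
      · exact Or.inr (h0 μ hμ h)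
      · rw [if_neg h]; exact Or.inl (zero_smul _ _))) y
    rw [LinearMap.sub_apply, LinearMap.smul_apply, Module.End.mul_apply, Module.End.mul_apply, i4,
      map_zero, smul_zero, sub_zero] at h6
    exact h6.symm
  · have h6 := app_eq (Ng_dl S g (π := de1 k o) (t := t1) (by
      intro μ hμ
      unfold de1
      rw [lmk_mon]
      by_cases h : μ o = 1
      · exact Or.inr (h1 μ hμ h)
      · rw [if_neg h]; exact Or.inl rfl)) y
    rw [LinearMap.sub_apply, LinearMap.smul_apply, Module.End.mul_apply, Module.End.mul_apply, i5,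
      map_zero, smul_zero, sub_zero] at h6
    exact h6.symm

end Pool.Agent.H80.OP
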