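import Pool.Agent.H80.OP.Ops

set_option autoImplicit false
set_option linter.unusedSectionVars false

/-!
# Full Ottaviani-Paoletti, part (T): derivations and letters on the closed leading terms
-/

open MvPolynomial

namespace Pool.Agent.H80.OP

open Pool.Agent.H27.OP Pool.Agent.H20.OPF Pool.Agent.H12.OP

section maps

variable {σ k : Type} [Fintype σ] [Field k]

/-- `μ - y + x` -/
noncomputable def mv (x y : σ) (μ : σ →₀ ℕ) : σ →₀ ℕ := μ - Finsupp.single y 1 + Finsupp.single x 1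

lemma mv_ne {x y z : σ} (hx : x ≠ z) (hy : y ≠ z) (μ : σ →₀ ℕ) : mv x y μ z = μ z := by
  unfold mv
  rw [Finsupp.add_apply, Finsupp.tsub_apply, Finsupp.single_eq_of_ne (Ne.symm hy),
    Finsupp.single_eq_of_ne (Ne.symm hx), Nat.sub_zero, Nat.add_zero]

lemma mv_to {x y : σ} (h : x ≠ y) (μ : σ →₀ ℕ) : mv x y μ x = μ x + 1 := by
  unfold mv
  rw [Finsupp.add_apply, Finsupp.tsub_apply, Finsupp.single_eq_of_ne h,
    Finsupp.single_eq_same, Nat.sub_zero]

lemma mv_from {x y : σ} (h : x ≠ y) (μ : σ →₀ ℕ) : mv x y μ y = μ y - 1 := by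
  unfold mv
  rw [Finsupp.add_apply, Finsupp.tsub_apply, Finsupp.single_eq_of_ne (Ne.symm h),
    Finsupp.single_eq_same, Nat.add_zero]

lemma mv_mv {x y : σ} (h : x ≠ y) {μ : σ →₀ ℕ} (hy : 1 ≤ μ y) : mv y x (mv x y μ) = μ := by
  ext z
  by_cases h1 : z = x
  · subst h1
    rw [mv_from (Ne.symm h), mv_to h]; rfl
  · by_cases h2 : z = y
    · subst h2
      rw [mv_to (Ne.symm h), mv_from h]; omega
    · rw [mv_ne (Ne.symm h2) (Ne.symm h1), mv_ne (Ne.symm h1) (Ne.symm h2)]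

lemma mv_Mo {d : ℕ} {x y : σ} {μ : σ →₀ ℕ} (hμ : μ ∈ Mo σ d) (hy : 1 ≤ μ y) :
    mv x y μ ∈ Mo σ d := by
  rw [mem_Mo] at hμ ⊢
  have h1 : Finsupp.single y 1 + (μ - Finsupp.single y 1) = μ := by
    rw [add_tsub_cancel_of_le]
    intro z
    by_cases hz : z = y
    · subst hz; rw [Finsupp.single_eq_same]; exact hy
    · rw [Finsupp.single_eq_of_ne hz]; exact Nat.zero_le _
  have h2 : (Finsupp.single y 1 + (μ - Finsupp.single y 1)).degree = d := by rw [h1, hμ]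
  rw [map_add, Finsupp.degree_single] at h2
  unfold mv
  rw [map_add, Finsupp.degree_single]
  omega

lemma cpd_mon (x y : σ) (μ : σ →₀ ℕ) :
    Fk.cpd (X x) y (monomial μ (1 : k)) = (μ y : k) • monomial (mv x y μ) 1 := by
  rw [Fk.cpd_apply, pderiv_monomial, one_mul, X, monomial_mul, one_mul, smul_monomial, smul_eq_mul,
    mul_one]
  unfold mv
  rw [add_comm]

lemma coeff_smul_mon {c : k} {μ ν : σ →₀ ℕ} (h : coeff ν (c • monomial μ (1 : k)) ≠ 0) :
    ν = μ ∧ c ≠ 0 := by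
  classical
  rw [coeff_smul, coeff_monomial] at h
  by_cases h1 : μ = ν
  · rw [if_pos h1, smul_eq_mul, mul_one] at h
    exact ⟨h1.symm, h⟩
  · rw [if_neg h1, smul_zero] at h
    exact absurd rfl h

lemma coeff_cpd {x y : σ} {μ ν : σ →₀ ℕ} (h : coeff ν (Fk.cpd (X x) y (monomial μ (1 : k))) ≠ 0) :
    ν = mv x y μ ∧ 1 ≤ μ y := by
  rw [cpd_mon] at h
  obtain ⟨h1, h2⟩ := coeff_smul_mon h
  refine ⟨h1, ?_⟩
  by_contra h3
  have : μ y = 0 := by omega
  rw [this, Nat.cast_zero] at h2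
  exact h2 rfl

lemma hom_X (x : σ) : (X x : MvPolynomial σ k).IsHomogeneous 1 := isHomogeneous_X _ _

end maps

variable {σ k F : Type} [Fintype σ] [Field k] [AddCommGroup F] [Module k F] {e : ℕ}

section ring

variable {O : Type} [Ring O] [Algebra k O] {d : ℕ} (S : Fk σ k O d)

lemma Ng_D (g : (σ →₀ ℕ) → k) (x y : σ) {t : k}
    (h : ∀ μ ∈ Mo σ d, 1 ≤ μ y → g (mv x y μ) = g μ + t) :
    Ng S g * QT S (Fk.cpd (X x) y) = QT S (Fk.cpd (X x) y) * Ng S g
      + t • QT S (Fk.cpd (X x) y) := by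
  refine Ng_QT S g (HD_cpd (hom_X x) y) fun μ hμ ν _ hc => ?_
  obtain ⟨h1, h2⟩ := coeff_cpd hc
  rw [h1, h μ hμ h2]

lemma Ng_Dxy (g : (σ →₀ ℕ) → k) (x y : σ)
    (h : ∀ μ ∈ Mo σ d, 1 ≤ μ y → g (mv x y μ) = g μ) :
    Ng S g * S.D (X x) y = S.D (X x) y * Ng S g := by
  rw [D_eq, mul_add, add_mul, ← mul_assoc, Ng_m, mul_assoc, Ng_T, ← mul_assoc,
    Ng_D S g x y (t := 0) (fun μ hμ hy => by rw [h μ hμ hy, add_zero]), zero_smul, add_zero]

lemma QT_cpd_diag (x : σ) : QT S (Fk.cpd (X x) x) = Ng S fun μ => (μ x : k) := by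
  refine QT_congr S fun μ _ => ?_
  rw [dg_mon, Fk.cpd_apply, X_pd_mon]

end ring

variable {S : Fk σ k (Module.End k F) (e + 1)} {A : Gr S} {o : σ} {K : BiK k F e}

lemma rho_Dxy (C : Cmp S A o K) {x y : σ} (hx : x ≠ o) (hy : y ≠ o) (ω : F) :
    K.rho (S.D (X x) y ω) = S.D (X x) y (K.rho ω) := by
  rw [D_eq, LinearMap.add_apply, LinearMap.add_apply, map_add, rho_QT C, Module.End.mul_apply,
    Module.End.mul_apply]
  congr 1
  have : (X x : MvPolynomial σ k) = monomial (Finsupp.single x 1) 1 := rfl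
  rw [this, rho_mon' C (Finsupp.single_eq_of_ne (Ne.symm hx)), C.rho_T y hy]

lemma D_oo (C : Cmp S A o K) {ω : F} (h : K.rho ω = ω) :
    S.D (X o) o ω = Ng S (fun μ => (μ o : k)) ω := by
  rw [D_eq, LinearMap.add_apply, Module.End.mul_apply, ← h, C.T_rho, map_zero, zero_add,
    QT_cpd_diag]

lemma dg_g0_mon {μ : σ →₀ ℕ} (h : μ o ≠ 0) : dg (g0 k o) (monomial μ (1 : k)) = 0 := by
  rw [dg_mon]
  unfold g0
  rw [if_neg h, zero_smul]

lemma de1_mon {μ : σ →₀ ℕ} (h : μ o ≠ 1) : de1 k o (monomial μ (1 : k)) = 0 := by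
  unfold de1
  rw [lmk_mon, if_neg h]

lemma Cl_Dxy (C : Cmp S A o K) {x y : σ} (hx : x ≠ o) (hy : y ≠ o) {s b m : ℕ} {ω : F}
    (h : ω ∈ Cl K s b m) : S.D (X x) y ω ∈ Cl K s b m := by
  rw [mem_Cl' C] at h ⊢
  obtain ⟨h1, h2, h3, h4, h5⟩ := h
  refine ⟨D_mem A h1 (hom_X x) y, ?_, by rw [rho_Dxy C hx hy, h3], ?_, ?_⟩
  · have h6 := app_eq (Ng_Dxy S (g0 k o) x y (fun μ _ _ => by
      unfold g0; rw [mv_ne hx hy])) ω
    rw [Module.End.mul_apply, Module.End.mul_apply, h2, map_smul] at h6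
    exact h6
  · have h6 := app_eq (D_dl S (hom_X x) y (dg (g0 k o))) ω
    have h7 : dl S (Fk.cpd (X x) y ∘ₗ dg (g0 k o)) = dl S (dg (g0 k o) ∘ₗ Fk.cpd (X x) y) := by
      refine dl_congr S fun μ _ => ?_
      rw [LinearMap.comp_apply, LinearMap.comp_apply, dg_mon, map_smul, cpd_mon, map_smul, dg_mon,
        smul_comm]
      unfold g0
      rw [mv_ne hx hy]
    rw [h7, add_sub_cancel_right, Module.End.mul_apply, Module.End.mul_apply, h4, map_zero] at h6
    exact h6.symm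
  · have h6 := app_eq (D_dl S (hom_X x) y (de1 k o)) ω
    have h7 : dl S (Fk.cpd (X x) y ∘ₗ de1 k o) = dl S (de1 k o ∘ₗ Fk.cpd (X x) y) := by
      refine dl_congr S fun μ _ => ?_
      rw [LinearMap.comp_apply, LinearMap.comp_apply, cpd_mon, map_smul]
      unfold de1
      rw [lmk_mon, lmk_mon, mv_ne hx hy]
      by_cases h : μ o = 1
      · rw [if_pos h, if_pos h, cpd_mon, Finsupp.tsub_apply,
          Finsupp.single_eq_of_ne hy, Nat.sub_zero]
        congr 3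
        ext z
        unfold mv
        simp only [Finsupp.add_apply, Finsupp.tsub_apply]
        by_cases hz : z = o
        · subst hz
          rw [Finsupp.single_eq_of_ne (Ne.symm hx), Finsupp.single_eq_of_ne (Ne.symm hy)]
          omega
        · rw [Finsupp.single_eq_of_ne (a := o) hz]; omega
      · rw [if_neg h, if_neg h, map_zero, smul_zero]
    rw [h7, add_sub_cancel_right, Module.End.mul_apply, Module.End.mul_apply, h5, map_zero] at h6
    exact h6.symm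

lemma Cl_E (C : Cmp S A o K) {μ : σ →₀ ℕ} (hμ : μ ∈ Mo σ (e + 1)) (h2 : 2 ≤ μ o) {s b m : ℕ}
    {y : F} (hy : y ∈ Cl K s b m) : S.E μ y ∈ Cl K s (b + 1) m := by
  rw [mem_Cl' C] at hy ⊢
  obtain ⟨i1, i2, i3, i4, i5⟩ := hy
  have hh : (monomial μ (1 : k)).IsHomogeneous (e + 1) := isHomogeneous_monomial _ (mem_Mo.mp hμ)
  refine ⟨A.GE i1, ?_, by rw [C.rho_E, i3], ?_, ?_⟩
  · have h6 := app_eq (Ng_E S (g0 k o) hμ) y
    have h7 : g0 k o μ = 0 := by unfold g0; rw [if_neg (by omega)]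
    rw [h7, zero_smul, add_zero, Module.End.mul_apply, Module.End.mul_apply, i2, map_smul] at h6
    exact h6
  · have h6 := app_eq (dl_Ee S (dg (g0 k o)) hh) y
    rw [dg_g0_mon (by omega), map_zero, zero_sub, S.Ee_monomial hμ, Module.End.mul_apply,
      LinearMap.neg_apply, Module.End.mul_apply, i4, map_zero, neg_zero] at h6
    exact h6
  · have h6 := app_eq (dl_Ee S (de1 k o) hh) y
    rw [de1_mon (by omega), map_zero, zero_sub, S.Ee_monomial hμ, Module.End.mul_apply,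
      LinearMap.neg_apply, Module.End.mul_apply, i5, map_zero, neg_zero] at h6
    exact h6

lemma Cl_J (C : Cmp S A o K) {μ : σ →₀ ℕ} (hμ : μ ∈ Mo σ (e + 1)) (h2 : 2 ≤ μ o) {s b m : ℕ}
    {y : F} (hy : y ∈ Cl K s (b + 1) m) : S.J μ y ∈ Cl K s b m := by
  rw [mem_Cl' C] at hy ⊢
  obtain ⟨i1, i2, i3, i4, i5⟩ := hy
  refine ⟨A.GJ i1, ?_, by rw [rho_J' C, i3], ?_, ?_⟩
  · have h6 := app_eq (Ng_J S (g0 k o) hμ) y
    have h7 : g0 k o μ = 0 := by unfold g0; rw [if_neg (by omega)]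
    rw [h7, zero_smul, sub_zero, Module.End.mul_apply, Module.End.mul_apply, i2, map_smul] at h6
    exact h6
  · have h6 := app_eq (dl_J S (dg (g0 k o)) μ) y
    rw [Module.End.mul_apply, LinearMap.neg_apply, Module.End.mul_apply, i4, map_zero,
      neg_zero] at h6
    exact h6
  · have h6 := app_eq (dl_J S (de1 k o) μ) y
    rw [Module.End.mul_apply, LinearMap.neg_apply, Module.End.mul_apply, i5, map_zero,
      neg_zero] at h6
    exact h6

end Pool.Agent.H80.OP
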