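import Pool.Agent.H80.OP.Ops2

set_option autoImplicit false
set_option linter.unusedSectionVars false

/-!
# Full Ottaviani-Paoletti, part (T): peeling off the letters `μ o ≥ 2`
-/

open MvPolynomial

namespace Pool.Agent.H80.OP

open Pool.Agent.H27.OP Pool.Agent.H20.OPF Pool.Agent.H12.OP

variable {σ k F : Type} [Fintype σ] [Field k] [AddCommGroup F] [Module k F] {e : ℕ}

section gen

variable {S : Fk σ k (Module.End k F) (e + 1)} (A : Gr S)

lemma Ng_congr_on {g g' : (σ →₀ ℕ) → k} {z : F}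
    (h : ∀ μ ∈ Mo σ (e + 1), g μ ≠ g' μ → S.J μ z = 0) : Ng S g z = Ng S g' z := by
  rw [Ng_apply, Ng_apply]
  refine Finset.sum_congr rfl fun μ hμ => ?_
  by_cases hc : g μ = g' μ
  · rw [hc]
  · rw [h μ hμ hc, map_zero, smul_zero, smul_zero]

lemma Ng_add_apply (g g' : (σ →₀ ℕ) → k) (z : F) :
    Ng S (fun μ => g μ + g' μ) z = Ng S g z + Ng S g' z := by
  rw [Ng_apply, Ng_apply, Ng_apply, ← Finset.sum_add_distrib]
  refine Finset.sum_congr rfl fun μ _ => ?_
  rw [add_smul]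

lemma Ng_smul_apply (t : k) (g : (σ →₀ ℕ) → k) (z : F) :
    Ng S (fun μ => t * g μ) z = t • Ng S g z := by
  rw [Ng_apply, Ng_apply, Finset.smul_sum]
  refine Finset.sum_congr rfl fun μ _ => ?_
  rw [mul_smul]

include A in
lemma Ng_one {p m : ℕ} {z : F} (h : z ∈ A.G p m) : Ng S (fun _ => (1 : k)) z = (p : k) • z := by
  rw [Ng_apply, ← A.num h]
  refine Finset.sum_congr rfl fun μ _ => ?_
  rw [one_smul]

include A in
lemma N_sum (o : σ) {p m : ℕ} {z : F} (h : z ∈ A.G p m) :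
    Ng S (g0 k o) z + Ng S (g1 k o) z + Ng S (g2 k o) z = (p : k) • z := by
  rw [← Ng_one A h, ← Ng_add_apply, ← Ng_add_apply]
  exact Ng_congr_on fun μ _ hc => absurd (g_sum o μ) hc

include A in
lemma Ng_fin [CharZero k] (c : (σ →₀ ℕ) → ℕ) (p m : ℕ) :
    ∃ M, ∀ ω ∈ A.G p m, dp (Ng S fun μ => (c μ : k)) M ω = 0 := by
  refine ⟨(∑ _x : σ, 0 * m) + (∑ μ ∈ Mo σ (e + 1), c μ) + 1, fun ω hω => ?_⟩
  have h := diag_fin A (fun _ => 0) c p m ω hω
  have h2 : (∑ x : σ, (((fun _ => 0 : σ → ℕ) x : ℕ) : k) • (S.m (X x) * S.T x)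
      + Ng S fun μ => (c μ : k)) = Ng S fun μ => (c μ : k) := by
    rw [Finset.sum_eq_zero, zero_add]
    intro x _
    rw [Nat.cast_zero, zero_smul]
  rw [h2] at h
  exact h

include A in
lemma J_zero [CharZero k] {p m : ℕ} {v : F} (hv : v ∈ A.G p m) (c : (σ →₀ ℕ) → ℕ)
    (h : Ng S (fun μ => (c μ : k)) v = 0) {μ : σ →₀ ℕ} (hμ : μ ∈ Mo σ (e + 1)) (hc : 1 ≤ c μ) :
    S.J μ v = 0 := by
  rcases p with _ | p
  · exact A.GJ0 hv
  obtain ⟨t, ht⟩ : ∃ t, c μ = t + 1 := ⟨c μ - 1, by omega⟩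
  obtain ⟨M, hM⟩ := Ng_fin A c p m
  refine dp_neg (Ng S fun μ => (c μ : k)) (t := t) (M := M) ?_ (hM _ (A.GJ hv))
  have h6 := app_eq (Ng_J S (fun μ => (c μ : k)) hμ) v
  rw [LinearMap.sub_apply, Module.End.mul_apply, Module.End.mul_apply, h, map_zero, zero_sub,
    LinearMap.smul_apply, ht] at h6
  rw [h6, neg_smul]
  push_cast
  rfl

end gen

variable {S : Fk σ k (Module.End k F) (e + 1)} {A : Gr S} {o : σ} {K : BiK k F e}

lemma g2_nat (o : σ) : (g2 k o : (σ →₀ ℕ) → k)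
    = fun μ => ((if 2 ≤ μ o then 1 else 0 : ℕ) : k) := by
  funext μ
  unfold g2
  split_ifs <;> simp

lemma g1_nat (o : σ) : (g1 k o : (σ →₀ ℕ) → k)
    = fun μ => ((if μ o = 1 then 1 else 0 : ℕ) : k) := by
  funext μ
  unfold g1
  split_ifs <;> simp

lemma Ga_Cl [CharZero k] (C : Cmp S A o K) {s i m : ℕ} {z : F} :
    z ∈ Ga A o s i m ↔ z ∈ Cl K s i m ∧ Ng S (g2 k o) z = 0 := by
  rw [mem_Ga, mem_Gm, mem_Cl' C, dS_eq', d1_eq']
  constructor
  · rintro ⟨⟨h1, h2, h3, h4⟩, h5, h6⟩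
    have hr := C.rho_of_T z h2
    have h7 : Ng S (g2 k o) z = 0 := by
      rw [Ng_apply]
      refine Finset.sum_eq_zero fun μ hμ => ?_
      unfold g2
      split_ifs with h
      · rw [h3 μ hμ h, map_zero, smul_zero]
      · rw [zero_smul]
    have h8 : Ng S (g1 k o) z = (i : k) • z := by
      rw [← h4, D_oo C hr]
      refine Ng_congr_on fun μ hμ hc => ?_
      unfold g1 at hc
      rcases Nat.lt_or_ge (μ o) 2 with h | h
      · rcases Nat.lt_or_ge (μ o) 1 with h9 | h9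
        · have h10 : μ o = 0 := by omega
          rw [if_neg (by omega), h10, Nat.cast_zero] at hc
          exact absurd rfl hc
        · have h10 : μ o = 1 := by omega
          rw [if_pos h10, h10, Nat.cast_one] at hc
          exact absurd rfl hc
      · exact h3 μ hμ h
    have h9 := N_sum A o h1
    rw [h7, h8, add_zero, Nat.cast_add, add_smul] at h9
    exact ⟨⟨h1, add_right_cancel h9, hr, h5, h6⟩, h7⟩
  · rintro ⟨⟨h1, h2, h3, h4, h5⟩, h6⟩
    have h7 : ∀ μ ∈ Mo σ (e + 1), 2 ≤ μ o → S.J μ z = 0 := by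
      intro μ hμ h
      refine J_zero A h1 (fun μ => if 2 ≤ μ o then 1 else 0) ?_ hμ (by simp only [if_pos h, le_refl])
      rw [← g2_nat, h6]
    have h8 := N_sum A o h1
    rw [h2, h6, add_zero, Nat.cast_add, add_smul] at h8
    have h9 := add_left_cancel h8
    refine ⟨⟨h1, by rw [← h3]; exact C.T_rho z, h7, ?_⟩, h4, h5⟩
    rw [← h9, D_oo C h3]
    refine Ng_congr_on fun μ hμ hc => ?_
    unfold g1 at hc
    rcases Nat.lt_or_ge (μ o) 2 with h | h
    · rcases Nat.lt_or_ge (μ o) 1 with h9 | h9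
      · have h10 : μ o = 0 := by omega
        rw [if_neg (by omega), h10, Nat.cast_zero] at hc
        exact absurd rfl hc
      · have h10 : μ o = 1 := by omega
        rw [if_pos h10, h10, Nat.cast_one] at hc
        exact absurd rfl hc
    · exact h7 μ hμ h

/-- combinations of products of `j` operators `E μ`, `μ o ≥ 2` -/
def Wj (S : Fk σ k (Module.End k F) (e + 1)) (o : σ) : ℕ → Submodule k (Module.End k F)
  | 0 => Submodule.span k {1}
  | j + 1 => Submodule.span k {T | ∃ μ ∈ Mo σ (e + 1), 2 ≤ μ o ∧ ∃ β ∈ Wj S o j, T = S.E μ * β}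

lemma Wj_E {j : ℕ} {μ : σ →₀ ℕ} (hμ : μ ∈ Mo σ (e + 1)) (h : 2 ≤ μ o) {β : Module.End k F}
    (hβ : β ∈ Wj S o j) : S.E μ * β ∈ Wj S o (j + 1) :=
  Submodule.subset_span ⟨μ, hμ, h, β, hβ, rfl⟩

lemma Wj_Ee {j : ℕ} {u : MvPolynomial σ k}
    (h : ∀ ν ∈ Mo σ (e + 1), coeff ν u ≠ 0 → 2 ≤ ν o) {β : Module.End k F}
    (hβ : β ∈ Wj S o j) : S.Ee u * β ∈ Wj S o (j + 1) := by
  rw [S.Ee_apply, Finset.sum_mul]
  refine Submodule.sum_mem _ fun ν hν => ?_
  rw [smul_mul_assoc]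
  by_cases hc : coeff ν u = 0
  · rw [hc, zero_smul]; exact zero_mem _
  · exact Submodule.smul_mem _ _ (Wj_E hν (h ν hν hc) hβ)

/-- induction over `Wj` -/
lemma Wj_ind (o : σ) {P : ℕ → Module.End k F → Prop} (h1 : P 0 1)
    (hE : ∀ j μ β, μ ∈ Mo σ (e + 1) → 2 ≤ μ o → β ∈ Wj S o j → P j β → P (j + 1) (S.E μ * β))
    (hadd : ∀ j β β', P j β → P j β' → P j (β + β')) (h0 : ∀ j, P j 0)
    (hsm : ∀ j (t : k) β, P j β → P j (t • β)) : ∀ j, ∀ β ∈ Wj S o j, P j β := by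
  intro j
  induction j with
  | zero =>
    intro β hβ
    refine Submodule.span_induction (p := fun β _ => P 0 β) ?_ (h0 0) (fun x y _ _ => hadd 0 x y)
      (fun t x _ => hsm 0 t x) hβ
    rintro x hx
    rw [Set.mem_singleton_iff] at hx
    rw [hx]; exact h1
  | succ j ih =>
    intro β hβ
    refine Submodule.span_induction (p := fun β _ => P (j + 1) β) ?_ (h0 _)
      (fun x y _ _ => hadd _ x y) (fun t x _ => hsm _ t x) hβ
    rintro x ⟨μ, hμ, h, β', hβ', rfl⟩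
    exact hE j μ β' hμ h hβ' (ih β' hβ')

lemma Wj_Cl (C : Cmp S A o K) {s i m : ℕ} {z : F} (hz : z ∈ Cl K s i m) :
    ∀ j, ∀ β ∈ Wj S o j, β z ∈ Cl K s (i + j) m := by
  refine Wj_ind o (P := fun j β => β z ∈ Cl K s (i + j) m) hz ?_ ?_ ?_ ?_
  · intro j μ β hμ h _ ih
    exact Cl_E C hμ h ih
  · intro j β β' h h'
    exact add_mem h h'
  · intro j
    exact zero_mem _
  · intro j t β h
    exact Submodule.smul_mem _ _ h

lemma Wj_N : ∀ j, ∀ β ∈ Wj S o j, Ng S (g2 k o) * β = β * Ng S (g2 k o) + (j : k) • β := by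
  refine Wj_ind o (P := fun j β => Ng S (g2 k o) * β = β * Ng S (g2 k o) + (j : k) • β)
    ?_ ?_ ?_ ?_ ?_
  · rw [Nat.cast_zero, zero_smul, add_zero, mul_one, one_mul]
  · intro j μ β hμ h _ ih
    have h7 : g2 k o μ = 1 := by unfold g2; rw [if_pos h]
    rw [← mul_assoc, Ng_E S _ hμ, h7, one_smul, add_mul, mul_assoc, ih, mul_add, mul_smul_comm,
      mul_assoc, Nat.cast_add, Nat.cast_one, add_smul, one_smul]
    abel
  · intro j β β' h h'
    rw [mul_add, h, h', add_mul, smul_add]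
    abel
  · intro j
    rw [mul_zero, zero_mul, smul_zero, add_zero]
  · intro j t β h
    rw [mul_smul_comm, h, smul_add, smul_mul_assoc, smul_comm t]

lemma Wj_D {x y : σ} (hx : x ≠ o) (hy : y ≠ o) :
    ∀ j, ∀ β ∈ Wj S o j, S.D (X x) y * β - β * S.D (X x) y ∈ Wj S o j := by
  refine Wj_ind o (P := fun j β => S.D (X x) y * β - β * S.D (X x) y ∈ Wj S o j)
    ?_ ?_ ?_ ?_ ?_
  · rw [mul_one, one_mul, sub_self]; exact zero_mem _
  · intro j μ β hμ h hβ ih
    have h1 : S.D (X x) y * S.E μ = S.E μ * S.D (X x) y + S.Ee (X x * pderiv y (monomial μ 1)) := by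
      have := S.D_Ee (c := X x) y (isHomogeneous_monomial (1 : k) (mem_Mo.mp hμ))
      rwa [S.Ee_monomial hμ] at this
    have h2 : S.D (X x) y * (S.E μ * β) - S.E μ * β * S.D (X x) y
        = S.E μ * (S.D (X x) y * β - β * S.D (X x) y)
          + S.Ee (Fk.cpd (X x) y (monomial μ 1)) * β := by
      rw [← mul_assoc, h1, add_mul, mul_sub, Fk.cpd_apply]
      simp only [mul_assoc]
      abel
    rw [h2]
    refine add_mem (Wj_E hμ h ih) (Wj_Ee (fun ν _ hc => ?_) hβ)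
    rw [(coeff_cpd hc).1, mv_ne hx hy]
    exact h
  · intro j β β' h h'
    have : S.D (X x) y * (β + β') - (β + β') * S.D (X x) y
        = (S.D (X x) y * β - β * S.D (X x) y) + (S.D (X x) y * β' - β' * S.D (X x) y) := by
      rw [mul_add, add_mul]; abel
    rw [this]; exact add_mem h h'
  · intro j
    rw [mul_zero, zero_mul, sub_zero]; exact zero_mem _
  · intro j t β h
    rw [mul_smul_comm, smul_mul_assoc, ← smul_sub]
    exact Submodule.smul_mem _ _ h

lemma Wj_m (a : MvPolynomial σ k) : ∀ j, ∀ β ∈ Wj S o j, S.m a * β = β * S.m a := by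
  refine Wj_ind o (P := fun _ β => S.m a * β = β * S.m a) ?_ ?_ ?_ ?_ ?_
  · rw [mul_one, one_mul]
  · intro j μ β _ _ _ ih
    rw [← mul_assoc, S.mE, mul_assoc, ih, mul_assoc]
  · intro j β β' h h'
    rw [mul_add, h, h', add_mul]
  · intro j
    rw [mul_zero, zero_mul]
  · intro j t β h
    rw [mul_smul_comm, h, smul_mul_assoc]

/-- the part of `X_x ∂_x` which does not touch the letters `μ o ≥ 2` -/
noncomputable def DQ (S : Fk σ k (Module.End k F) (e + 1)) (o x : σ) : Module.End k F :=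
  S.D (X x) x - Ng S fun μ => g2 k o μ * (μ x : k)

lemma DQ_E (x : σ) {μ : σ →₀ ℕ} (hμ : μ ∈ Mo σ (e + 1)) (h : 2 ≤ μ o) :
    DQ S o x * S.E μ = S.E μ * DQ S o x := by
  have h1 : S.D (X x) x * S.E μ = S.E μ * S.D (X x) x + (μ x : k) • S.E μ := by
    have := S.D_Ee (c := X x) x (isHomogeneous_monomial (1 : k) (mem_Mo.mp hμ))
    rwa [S.Ee_monomial hμ, X_pd_mon, map_smul, S.Ee_monomial hμ] at this
  have h7 : g2 k o μ = 1 := by unfold g2; rw [if_pos h]
  unfold DQ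
  rw [sub_mul, h1, Ng_E S _ hμ, h7, one_mul, mul_sub]
  abel

lemma Wj_DQ (x : σ) : ∀ j, ∀ β ∈ Wj S o j, DQ S o x * β = β * DQ S o x := by
  refine Wj_ind o (P := fun _ β => DQ S o x * β = β * DQ S o x) ?_ ?_ ?_ ?_ ?_
  · rw [mul_one, one_mul]
  · intro j μ β hμ h _ ih
    rw [← mul_assoc, DQ_E x hμ h, mul_assoc, ih, mul_assoc]
  · intro j β β' h h'
    rw [mul_add, h, h', add_mul]
  · intro j
    rw [mul_zero, zero_mul]
  · intro j t β h
    rw [mul_smul_comm, h, smul_mul_assoc]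

/-- **Peeling.** -/
theorem Y_span [CharZero k] (C : Cmp S A o K) (s i m : ℕ) : ∀ j : ℕ, ∀ y ∈ Cl K s (i + j) m,
    Ng S (g2 k o) y = (j : k) • y →
      y ∈ Submodule.span k {u : F | ∃ β ∈ Wj S o j, ∃ z ∈ Ga A o s i m, u = β z} := by
  intro j
  induction j with
  | zero =>
    intro y hy h
    rw [Nat.cast_zero, zero_smul] at h
    exact Submodule.subset_span ⟨1, Submodule.subset_span rfl, y, (Ga_Cl C).mpr ⟨hy, h⟩, rfl⟩
  | succ j ih =>
    intro y hy h
    have h0 : ((j + 1 : ℕ) : k) ≠ 0 := Nat.cast_ne_zero.mpr (Nat.succ_ne_zero j)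
    have h1 : y = ((j + 1 : ℕ) : k)⁻¹ • ∑ μ ∈ Mo σ (e + 1), g2 k o μ • S.E μ (S.J μ y) := by
      rw [← Ng_apply, h, smul_smul, inv_mul_cancel₀ h0, one_smul]
    rw [h1]
    refine Submodule.smul_mem _ _ (Submodule.sum_mem _ fun μ hμ => ?_)
    by_cases h2 : 2 ≤ μ o
    · refine Submodule.smul_mem _ _ ?_
      have h3 : S.J μ y ∈ Cl K s (i + j) m := Cl_J C hμ h2 hy
      have h4 : Ng S (g2 k o) (S.J μ y) = (j : k) • S.J μ y := by
        have h6 := app_eq (Ng_J S (g2 k o) hμ) y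
        have h7 : g2 k o μ = 1 := by unfold g2; rw [if_pos h2]
        rw [h7, one_smul, LinearMap.sub_apply, Module.End.mul_apply, Module.End.mul_apply, h,
          map_smul, Nat.cast_add, Nat.cast_one, add_smul, one_smul, add_sub_cancel_right] at h6
        exact h6
      have h5 := ih _ h3 h4
      refine Submodule.span_induction (p := fun u _ => S.E μ u ∈ Submodule.span k
        {u : F | ∃ β ∈ Wj S o (j + 1), ∃ z ∈ Ga A o s i m, u = β z}) ?_ ?_ ?_ ?_ h5
      · rintro u ⟨β, hβ, z, hz, rfl⟩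
        exact Submodule.subset_span ⟨S.E μ * β, Wj_E hμ h2 hβ, z, hz, rfl⟩
      · rw [map_zero]; exact zero_mem _
      · intro u v _ _ hu hv
        rw [map_add]; exact add_mem hu hv
      · intro t u _ hu
        rw [map_smul]; exact Submodule.smul_mem _ _ hu
    · unfold g2
      rw [if_neg h2, zero_smul]
      exact zero_mem _

end Pool.Agent.H80.OP
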