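import Pool.Agent.H80.OP.Peel

set_option autoImplicit false
set_option linter.unusedSectionVars false

/-!
# Full Ottaviani-Paoletti, part (T): the map from closed leading terms to homology
-/

open MvPolynomial

namespace Pool.Agent.H80.OP

open Pool.Agent.H27.OP Pool.Agent.H20.OPF Pool.Agent.H12.OP Pool.Agent.H40.OP

/-- factorisation of linear maps over a field -/
lemma exists_factor {k Z F N : Type} [Field k] [AddCommGroup Z] [Module k Z] [AddCommGroup F]
    [Module k F] [AddCommGroup N] [Module k N] (f : Z →ₗ[k] F) (g : Z →ₗ[k] N)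
    (h : ∀ z, f z = 0 → g z = 0) : ∃ φ : F →ₗ[k] N, ∀ z, φ (f z) = g z := by
  have h1 : LinearMap.ker f ≤ LinearMap.ker g := fun z hz => by
    rw [LinearMap.mem_ker] at hz ⊢
    exact h z hz
  let φ0 : LinearMap.range f →ₗ[k] N := ((LinearMap.ker f).liftQ g h1).comp
    f.quotKerEquivRange.symm.toLinearMap
  obtain ⟨φ, hφ⟩ := LinearMap.exists_extend φ0
  refine ⟨φ, fun z => ?_⟩
  have h2 : φ (f z) = φ0 ⟨f z, LinearMap.mem_range_self f z⟩ := by
    rw [← hφ]; rfl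
  rw [h2]
  have h3 : f.quotKerEquivRange.symm ⟨f z, LinearMap.mem_range_self f z⟩
      = (LinearMap.ker f).mkQ z := by
    rw [LinearEquiv.symm_apply_eq]
    rfl
  show (LinearMap.ker f).liftQ g h1
    (f.quotKerEquivRange.symm ⟨f z, LinearMap.mem_range_self f z⟩) = g z
  rw [h3]
  rfl

variable {σ k F : Type} [Fintype σ] [Field k] [AddCommGroup F] [Module k F] {e : ℕ}
variable {S : Fk σ k (Module.End k F) (e + 1)} {A : Gr S} {o : σ} {K : BiK k F e}

lemma KD_eq (C : Cmp S A o K) : K.D = S.del := by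
  refine LinearMap.ext fun ω => ?_
  rw [K.D_apply, C.dS_eq, C.dA_eq, C.c_eq, del_eq_dS_dA S o, LinearMap.add_apply,
    Module.End.mul_apply]

lemma KD_comm (C : Cmp S A o K) (x y : σ) (ω : F) :
    K.D (S.D (X x) y ω) = S.D (X x) y (K.D ω) := by
  rw [KD_eq C]
  have := app_eq (S.D_del (hom_X x) y) ω
  rw [Module.End.mul_apply, Module.End.mul_apply] at this
  exact this.symm

lemma FS_G (C : Cmp S A o K) {s p m : ℕ} {ω : F} (h : ω ∈ K.FS s p m) : ω ∈ A.G p m := by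
  have h1 : K.FS s p m ≤ A.G p m := by
    refine K.FS_le fun a b _ hp x hx => ?_
    rw [← hp]
    exact (C.G_iff.mp hx).1
  exact h1 h

lemma G_of (C : Cmp S A o K) {a b m : ℕ} {ω : F} (h1 : ω ∈ A.G (a + b) m)
    (h2 : Ng S (g0 k o) ω = (a : k) • ω) : ω ∈ K.G a b m := by
  rw [C.G_iff, N0_eq]
  exact ⟨h1, h2⟩

lemma of_G (C : Cmp S A o K) {a b m : ℕ} {ω : F} (h : ω ∈ K.G a b m) :
    ω ∈ A.G (a + b) m ∧ Ng S (g0 k o) ω = (a : k) • ω := by
  rw [C.G_iff, N0_eq] at h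
  exact h

/-- operators on `F_s` -/
lemma FS_op (_C : Cmp S A o K) {s p m : ℕ} (L L' : F →ₗ[k] F)
    (h : ∀ a b, a ≤ s → a + b = p → ∀ ω ∈ K.G a b m, ∃ ω' ∈ K.FS s p m, L ω = ω' ∧
      (a = s → K.rho (K.pr s ω') = L' (K.rho ω)) ∧ (a < s → K.rho (K.pr s ω') = 0))
    {Θ : F} (hΘ : Θ ∈ K.FS s p m) :
    L Θ ∈ K.FS s p m ∧ K.rho (K.pr s (L Θ)) = L' (K.rho (K.pr s Θ)) := by
  have h1 : K.FS s p m ≤ (K.FS s p m).comap L ⊓
      LinearMap.ker (K.rho ∘ₗ K.pr s ∘ₗ L - L' ∘ₗ K.rho ∘ₗ K.pr s) := by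
    refine K.FS_le fun a b ha hp ω hω => ?_
    obtain ⟨ω', h1, h2, h3, h4⟩ := h a b ha hp ω hω
    rw [Submodule.mem_inf, Submodule.mem_comap, LinearMap.mem_ker, h2]
    refine ⟨h1, ?_⟩
    simp only [LinearMap.sub_apply, LinearMap.comp_apply]
    rw [h2]
    rcases Nat.lt_or_ge a s with h5 | h5
    · rw [h4 h5, K.pr_other (by omega) hω, map_zero, map_zero, sub_self]
    · have h6 : a = s := le_antisymm ha h5
      subst h6
      rw [h3 rfl, K.pr_same hω, sub_self]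
  have h2 := h1 hΘ
  rw [Submodule.mem_inf, Submodule.mem_comap, LinearMap.mem_ker] at h2
  refine ⟨h2.1, ?_⟩
  have h3 := h2.2
  simp only [LinearMap.sub_apply, LinearMap.comp_apply] at h3
  exact sub_eq_zero.mp h3

/-- operators of level zero -/
lemma FS_op0 (C : Cmp S A o K) {s p m : ℕ} (L L' : F →ₗ[k] F)
    (h : ∀ a b, a ≤ s → a + b = p → ∀ ω ∈ K.G a b m, L ω ∈ K.G a b m ∧
      K.rho (L ω) = L' (K.rho ω))
    {Θ : F} (hΘ : Θ ∈ K.FS s p m) :
    L Θ ∈ K.FS s p m ∧ K.rho (K.pr s (L Θ)) = L' (K.rho (K.pr s Θ)) := by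
  refine FS_op C L L' ?_ hΘ
  intro a b ha hp ω hω
  obtain ⟨h1, h2⟩ := h a b ha hp ω hω
  refine ⟨L ω, K.G_le_FS ha hp h1, rfl, ?_, ?_⟩
  · rintro rfl
    rw [K.pr_same h1, h2]
  · intro h3
    rw [K.pr_other (by omega) h1, map_zero]

lemma Dxy_G (C : Cmp S A o K) {x y : σ} (hx : x ≠ o) (hy : y ≠ o) {a b m : ℕ} {ω : F}
    (h : ω ∈ K.G a b m) : S.D (X x) y ω ∈ K.G a b m := by
  obtain ⟨h1, h2⟩ := of_G C h
  refine G_of C (D_mem A h1 (hom_X x) y) ?_
  have h6 := app_eq (Ng_Dxy S (g0 k o) x y (fun μ _ _ => by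
    unfold g0; rw [mv_ne hx hy])) ω
  rw [Module.End.mul_apply, Module.End.mul_apply, h2, map_smul] at h6
  exact h6

lemma FS_Dxy (C : Cmp S A o K) {x y : σ} (hx : x ≠ o) (hy : y ≠ o) {s p m : ℕ} {Θ : F}
    (hΘ : Θ ∈ K.FS s p m) : S.D (X x) y Θ ∈ K.FS s p m ∧
      K.rho (K.pr s (S.D (X x) y Θ)) = S.D (X x) y (K.rho (K.pr s Θ)) :=
  FS_op0 C (S.D (X x) y) (S.D (X x) y) (fun _ _ _ _ ω hω =>
    ⟨Dxy_G C hx hy hω, rho_Dxy C hx hy ω⟩) hΘ

lemma FS_Doo (C : Cmp S A o K) {s p m : ℕ} {Θ : F}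
    (hΘ : Θ ∈ K.FS s p m) : S.D (X o) o Θ ∈ K.FS s p m ∧
      K.rho (K.pr s (S.D (X o) o Θ)) = Ng S (fun μ => (μ o : k)) (K.rho (K.pr s Θ)) := by
  refine FS_op0 C (S.D (X o) o) (Ng S fun μ => (μ o : k)) (fun a b _ _ ω hω => ⟨?_, ?_⟩) hΘ
  · obtain ⟨h1, h2⟩ := of_G C hω
    refine G_of C (D_mem A h1 (hom_X o) o) ?_
    have h6 := app_eq (Ng_Dxy S (g0 k o) o o (fun μ _ h => by
      unfold g0
      have : mv o o μ o = μ o := by
        unfold mv
        rw [Finsupp.add_apply, Finsupp.tsub_apply, Finsupp.single_eq_same]; omega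
      rw [this])) ω
    rw [Module.End.mul_apply, Module.End.mul_apply, h2, map_smul] at h6
    exact h6
  · rw [D_eq, LinearMap.add_apply, map_add, Module.End.mul_apply, rho_mX C, zero_add, rho_QT C,
      QT_cpd_diag]

/-- the part of `X_o ∂_x` on the letters `μ o ≥ 1` -/
noncomputable def T12 (k : Type) [Field k] (o x : σ) : MvPolynomial σ k →ₗ[k] MvPolynomial σ k :=
  Fk.cpd (X o) x ∘ₗ dg (fun μ => g1 k o μ + g2 k o μ)

/-- the part of `X_o ∂_x` on the letters `μ o = 0` -/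
noncomputable def T01 (k : Type) [Field k] (o x : σ) : MvPolynomial σ k →ₗ[k] MvPolynomial σ k :=
  Fk.cpd (X o) x ∘ₗ dg (g0 k o)

lemma cpd_split {d : ℕ} {O : Type} [Ring O] [Algebra k O] (S : Fk σ k O d) (o x : σ) :
    QT S (Fk.cpd (X o) x) = QT S (T01 k o x) + QT S (T12 k o x) := by
  rw [← QT_add]
  refine QT_congr S fun μ _ => ?_
  unfold T01 T12
  rw [LinearMap.add_apply, LinearMap.comp_apply, LinearMap.comp_apply, dg_mon, dg_mon, ← map_add,
    ← add_smul, ← add_assoc, g_sum, one_smul]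

lemma coeff_cpd_dg {g : (σ →₀ ℕ) → k} {x y : σ} {μ ν : σ →₀ ℕ}
    (h : coeff ν ((Fk.cpd (X x) y ∘ₗ dg g) (monomial μ (1 : k))) ≠ 0) :
    ν = mv x y μ ∧ 1 ≤ μ y ∧ g μ ≠ 0 := by
  rw [LinearMap.comp_apply, dg_mon, map_smul, coeff_smul] at h
  have h1 : coeff ν (Fk.cpd (X x) y (monomial μ (1 : k))) ≠ 0 := fun h2 => by
    rw [h2, smul_zero] at h; exact h rfl
  have h3 : g μ ≠ 0 := fun h2 => by
    rw [h2, zero_smul] at h; exact h rfl
  obtain ⟨h4, h5⟩ := coeff_cpd h1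
  exact ⟨h4, h5, h3⟩

lemma HD_cpd_dg {d : ℕ} (g : (σ →₀ ℕ) → k) (x y : σ) : HD d (Fk.cpd (X x) y ∘ₗ dg g) := by
  intro μ hμ
  rw [LinearMap.comp_apply, dg_mon, map_smul, smul_eq_C_mul]
  exact (HD_cpd (hom_X x) y μ hμ).C_mul _

lemma FS_Dox (C : Cmp S A o K) {x : σ} (hx : x ≠ o) {s p m : ℕ} {Θ : F}
    (hΘ : Θ ∈ K.FS s p m) : S.D (X o) x Θ ∈ K.FS s p m ∧
      K.rho (K.pr s (S.D (X o) x Θ)) = QT S (T12 k o x) (K.rho (K.pr s Θ)) := by
  refine FS_op C (S.D (X o) x) (QT S (T12 k o x)) ?_ hΘ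
  intro a b ha hp ω hω
  obtain ⟨h1, h2⟩ := of_G C hω
  -- the three parts
  have k1 : S.m (X o) (S.T x ω) ∈ K.G a b m := by
    rcases m with _ | m
    · rw [A.GT0 h1, map_zero]; exact zero_mem _
    · refine G_of C (A.Gm (hom_X o) (A.GT h1)) ?_
      have h3 := app_eq (Ng_m S (g0 k o) (X o)) (S.T x ω)
      have h4 := app_eq (Ng_T S (g0 k o) x) ω
      rw [Module.End.mul_apply, Module.End.mul_apply] at h3 h4
      rw [h3, h4, h2, map_smul, map_smul]
  have k2 : QT S (T12 k o x) ω ∈ K.G a b m := by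
    refine G_of C (QT_mem A _ h1) ?_
    have h3 := app_eq (Ng_QT S (g0 k o) (T := T12 k o x) (HD_cpd_dg _ _ _) (t := 0) (by
      intro μ _ ν _ hc
      obtain ⟨h4, _, h6⟩ := coeff_cpd_dg hc
      have h7 : μ o ≠ 0 := by
        intro h8
        apply h6
        unfold g1 g2
        rw [if_neg (by omega), if_neg (by omega), add_zero]
      have h8 : ν o = μ o + 1 := by rw [h4, mv_to (Ne.symm hx)]
      unfold g0
      rw [if_neg (by omega), if_neg h7, add_zero])) ω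
    rw [zero_smul, add_zero, Module.End.mul_apply, Module.End.mul_apply, h2, map_smul] at h3
    exact h3
  have k3 : (a = 0 → QT S (T01 k o x) ω = 0) ∧
      ∀ a', a = a' + 1 → QT S (T01 k o x) ω ∈ K.G a' (b + 1) m := by
    refine ⟨?_, ?_⟩
    · rintro rfl
      unfold QT
      rw [LinearMap.sum_apply]
      refine Finset.sum_eq_zero fun μ hμ => ?_
      rw [Module.End.mul_apply]
      by_cases h : μ o = 0
      · rw [C.J_S hω μ hμ h, map_zero]
      · unfold T01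
        rw [LinearMap.comp_apply, dg_g0_mon h, map_zero, map_zero, LinearMap.zero_apply]
    · rintro a' rfl
      refine G_of C ?_ ?_
      · have := QT_mem A (T01 k o x) h1
        rwa [show a' + 1 + b = a' + (b + 1) by omega] at this
      · have h3 := app_eq (Ng_QT S (g0 k o) (T := T01 k o x) (HD_cpd_dg _ _ _) (t := -1) (by
          intro μ _ ν _ hc
          obtain ⟨h4, _, h6⟩ := coeff_cpd_dg hc
          have h7 : μ o = 0 := by
            by_contra h8
            apply h6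
            unfold g0
            rw [if_neg h8]
          have h8 : ν o = μ o + 1 := by rw [h4, mv_to (Ne.symm hx)]
          unfold g0
          rw [if_neg (by omega), if_pos h7]; ring)) ω
        rw [LinearMap.add_apply, Module.End.mul_apply, Module.End.mul_apply, h2, map_smul,
          LinearMap.smul_apply] at h3
        rw [h3, ← add_smul]
        congr 1
        push_cast
        ring
  have k4 : S.D (X o) x ω = (S.m (X o) (S.T x ω) + QT S (T12 k o x) ω) + QT S (T01 k o x) ω := by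
    rw [D_eq, cpd_split S o x, LinearMap.add_apply, LinearMap.add_apply, Module.End.mul_apply]
    abel
  refine ⟨S.D (X o) x ω, ?_, rfl, ?_, ?_⟩
  · rw [k4]
    refine add_mem (K.G_le_FS ha hp (add_mem k1 k2)) ?_
    rcases a with _ | a
    · rw [k3.1 rfl]; exact zero_mem _
    · exact K.G_le_FS (by omega) (by omega) (k3.2 a rfl)
  · rintro rfl
    have k5 : K.pr a (QT S (T01 k o x) ω) = 0 := by
      rcases a with _ | a
      · rw [k3.1 rfl, map_zero]
      · exact K.pr_other (by omega) (k3.2 a rfl)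
    rw [k4, map_add, k5, add_zero, K.pr_same (add_mem k1 k2), map_add, rho_mX C, zero_add,
      rho_QT C]
  · intro h5
    have k5 : K.pr s (QT S (T01 k o x) ω) = 0 := by
      rcases a with _ | a
      · rw [k3.1 rfl, map_zero]
      · exact K.pr_other (by omega) (k3.2 a rfl)
    rw [k4, map_add, k5, add_zero, K.pr_other (by omega) (add_mem k1 k2), map_zero]

end Pool.Agent.H80.OP
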