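import Pool.Agent.H80.OP.Phi

set_option autoImplicit false
set_option linter.unusedSectionVars false

/-!
# Full Ottaviani-Paoletti, part (T): the map from closed leading terms to homology, properties
-/

open MvPolynomial

namespace Pool.Agent.H80.OP

open Pool.Agent.H27.OP Pool.Agent.H20.OPF Pool.Agent.H12.OP Pool.Agent.H40.OP

variable {σ k F : Type} [Fintype σ] [Field k] [AddCommGroup F] [Module k F] {e : ℕ}
variable {S : Fk σ k (Module.End k F) (e + 1)} {A : Gr S} {o : σ} {K : BiK k F e}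

/-- the homology -/
abbrev HN (K : BiK k F e) : Type := F ⧸ LinearMap.range K.D

lemma D_le (C : Cmp S A o K) (x y : σ) :
    LinearMap.range K.D ≤ (LinearMap.range K.D).comap (S.D (X x) y) := by
  rintro _ ⟨η, rfl⟩
  exact ⟨S.D (X x) y η, KD_comm C x y η⟩

/-- action on the homology -/
noncomputable def LN (C : Cmp S A o K) (x y : σ) : Module.End k (HN K) :=
  (LinearMap.range K.D).mapQ (LinearMap.range K.D) (S.D (X x) y) (D_le C x y)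

lemma LN_mk (C : Cmp S A o K) (x y : σ) (Θ : F) :
    LN C x y ((LinearMap.range K.D).mkQ Θ) = (LinearMap.range K.D).mkQ (S.D (X x) y Θ) := rfl

lemma mk_zero {K : BiK k F e} {Θ : F} :
    (LinearMap.range K.D).mkQ Θ = 0 ↔ Θ ∈ LinearMap.range K.D := by
  rw [Submodule.mkQ_apply, Submodule.Quotient.mk_eq_zero]

/-- leading terms of cycles are closed -/
lemma sy_Cl {s p b m : ℕ} (hsb : s + 1 + b = p) {Θ : F}
    (h : Θ ∈ K.FS (s + 1) p m) (hD : K.D Θ = 0) : K.rho (K.pr (s + 1) Θ) ∈ Cl K (s + 1) b m := by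
  obtain ⟨y, hy, z, rfl, hz, -⟩ := K.FS_succ h
  have hz1 := hz b hsb
  rw [map_add, K.pr_FS (Nat.lt_succ_self s) hy, zero_add, K.pr_same hz1]
  have h1 := top_cycle hz1 (y := y) (by rw [hsb]; exact FS_le_FL K hy)
    (by rw [add_comm]; exact hD)
  exact ⟨K.rho_mem hz1, K.rho_rho z, h1.2.2.1, h1.2.2.2⟩

lemma sy_zero {p : ℕ} (H : InpK K p) (hp : p ≤ 3 * e) {s b : ℕ} (hsb : s + 1 + b = p)
    (hlow : ∀ Θ ∈ K.FS s p (2 * e + 2), K.D Θ = 0 → Θ ∈ LinearMap.range K.D) {Θ : F}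
    (h : Θ ∈ K.FS (s + 1) p (2 * e + 2)) (hD : K.D Θ = 0) (h0 : K.rho (K.pr (s + 1) Θ) = 0) :
    Θ ∈ LinearMap.range K.D := by
  obtain ⟨y, hy, z, rfl, hz, -⟩ := K.FS_succ h
  have hz1 := hz b hsb
  rw [map_add, K.pr_FS (Nat.lt_succ_self s) hy, zero_add, K.pr_same hz1] at h0
  have h1 := top_cycle hz1 (y := y) (by rw [hsb]; exact FS_le_FL K hy)
    (by rw [add_comm]; exact hD)
  obtain ⟨w, _, y', hy', h2⟩ := H.reduce (by omega) hz1 h1.1 h0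
  rw [hsb] at hy'
  have h3 : K.D (y + y') = 0 := by
    have : y + y' = y + z - K.D w := by rw [h2]; abel
    rw [this, map_sub, hD, K.DD, sub_zero]
  obtain ⟨η, hη⟩ := hlow _ (add_mem hy hy') h3
  refine ⟨η + w, ?_⟩
  rw [map_add, hη, h2]
  abel

/-- the map `φ` -/
structure Ph (C : Cmp S A o K) (p s b : ℕ) where
  φ : F →ₗ[k] HN K
  lift : ∀ y ∈ Cl K s b (2 * e + 2), ∃ Θ ∈ A.G p (2 * e + 2), K.D Θ = 0 ∧
    φ y = (LinearMap.range K.D).mkQ Θ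
  xy : ∀ x y : σ, x ≠ o → y ≠ o → ∀ u ∈ Cl K s b (2 * e + 2), φ (S.D (X x) y u) = LN C x y (φ u)
  oo : ∀ u ∈ Cl K s b (2 * e + 2), φ (Ng S (fun μ => (μ o : k)) u) = LN C o o (φ u)
  ox : ∀ x : σ, x ≠ o → ∀ u ∈ Cl K s b (2 * e + 2), φ (QT S (T12 k o x) u) = LN C o x (φ u)
  bd : ∀ w ∈ K.G (s + 1) b (e + 1), K.rho (K.dA w) = 0 → φ (K.rho (K.dS w)) = 0
  fin : (∀ y ∈ Cl K s b (2 * e + 2), φ y = 0) → ∀ Θ ∈ K.FS s p (2 * e + 2), K.D Θ = 0 →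
    Θ ∈ LinearMap.range K.D

theorem exists_Ph (C : Cmp S A o K) {p : ℕ} (H : InpK K p) (hp : p ≤ 3 * e) {s b : ℕ}
    (hs : 1 ≤ s) (hsb : s + 1 + b = p)
    (hlow : ∀ Θ ∈ K.FS s p (2 * e + 2), K.D Θ = 0 → Θ ∈ LinearMap.range K.D) :
    Nonempty (Ph C p (s + 1) b) := by
  obtain ⟨φ, hφ⟩ := exists_factor
    (Z := (K.FS (s + 1) p (2 * e + 2) ⊓ LinearMap.ker K.D : Submodule k F))
    ((K.rho ∘ₗ K.pr (s + 1)) ∘ₗ Submodule.subtype _)
    ((LinearMap.range K.D).mkQ ∘ₗ Submodule.subtype _) (by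
      rintro ⟨Θ, hΘ⟩ h
      rw [Submodule.mem_inf, LinearMap.mem_ker] at hΘ
      exact mk_zero.mpr (sy_zero H hp hsb hlow hΘ.1 hΘ.2 h))
  have key : ∀ Θ ∈ K.FS (s + 1) p (2 * e + 2), K.D Θ = 0 →
      φ (K.rho (K.pr (s + 1) Θ)) = (LinearMap.range K.D).mkQ Θ := by
    intro Θ h1 h2
    exact hφ ⟨Θ, (Submodule.mem_inf.mpr ⟨h1, LinearMap.mem_ker.mpr h2⟩)⟩
  have lf : ∀ y ∈ Cl K (s + 1) b (2 * e + 2), ∃ Θ ∈ K.FS (s + 1) p (2 * e + 2), K.D Θ = 0 ∧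
      K.rho (K.pr (s + 1) Θ) = y := by
    rintro y ⟨h1, h2, h3, h4⟩
    have := H.lift' hp (by omega : s + 1 + b ≤ p) h1 h2 h3 h4
    rwa [hsb] at this
  have act : ∀ (x y : σ) (L' : F →ₗ[k] F), (∀ Θ ∈ K.FS (s + 1) p (2 * e + 2),
      S.D (X x) y Θ ∈ K.FS (s + 1) p (2 * e + 2) ∧
        K.rho (K.pr (s + 1) (S.D (X x) y Θ)) = L' (K.rho (K.pr (s + 1) Θ))) →
      ∀ u ∈ Cl K (s + 1) b (2 * e + 2), φ (L' u) = LN C x y (φ u) := by
    intro x y L' hL u hu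
    obtain ⟨Θ, h1, h2, rfl⟩ := lf u hu
    obtain ⟨h3, h4⟩ := hL Θ h1
    rw [← h4, key _ h3 (by rw [KD_comm C, h2, map_zero]), key _ h1 h2, LN_mk]
  refine ⟨⟨φ, ?_, ?_, ?_, ?_, ?_, ?_⟩⟩
  · intro y hy
    obtain ⟨Θ, h1, h2, rfl⟩ := lf y hy
    exact ⟨Θ, FS_G C h1, h2, key Θ h1 h2⟩
  · intro x y hx hy
    exact act x y _ fun Θ hΘ => FS_Dxy C hx hy hΘ
  · exact act o o _ fun Θ hΘ => FS_Doo C hΘ
  · intro x hx
    exact act o x _ fun Θ hΘ => FS_Dox C hx hΘ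
  · intro w hw h
    obtain ⟨w', h1, h2, h3, h4, h5⟩ := H.topbd (s := s + 1) (b := b) (by omega) hw h
    have h6 : K.D w' ∈ K.G (s + 1) b (2 * e + 2) := by
      rw [h3]
      have := K.dS_mem h1
      rwa [show e + 1 + (e + 1) = 2 * e + 2 by ring] at this
    have h7 := key (K.D w') (K.G_le_FS le_rfl hsb h6) (K.DD w')
    rw [K.pr_same h6, h3, h4] at h7
    rw [h7]
    exact mk_zero.mpr ⟨w', h3⟩
  · intro h Θ h1 h2
    rw [← mk_zero, ← key Θ h1 h2]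
    exact h _ (sy_Cl hsb h1 h2)

end Pool.Agent.H80.OP
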