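import Pool.Agent.H80.OP.Rec

set_option autoImplicit false

/-!
# Ottaviani-Paoletti: the recursion, Theorem 1 (s ≤ 1), symbols
-/

namespace Pool.Agent.H80.OP

namespace BiK

variable {k F : Type*} [Field k] [AddCommGroup F] [Module k F] {e : ℕ} (K : BiK k F e)

/-- top component of a cycle -/
lemma top_cycle {s p m b : ℕ} {y z : F} (hy : y ∈ K.FS s p m) (hz : z ∈ K.G (s + 1) b m)
    (hp : s + 1 + b = p) (h : K.D (y + z) = 0) : K.dA z = 0 ∧ K.D y + K.dS z = 0 := by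
  rcases b with _ | b
  · have h1 := K.dA_zero hz
    refine ⟨h1, ?_⟩
    rw [map_add, D_apply _ z, h1, map_zero, add_zero] at h
    exact h
  · have h0 : K.c (K.dA z) + (K.D y + K.dS z) = 0 := by
      rw [map_add, D_apply _ z] at h
      rw [← h]; abel
    obtain ⟨q, rfl⟩ : ∃ q, p = q + 1 := ⟨s + 1 + b, by omega⟩
    have h2 : K.c (K.dA z) ∈ K.G (s + 1) b (m + e + 1) := K.c_mem (K.dA_mem hz)
    have h3 : K.D y + K.dS z ∈ K.FS s q (m + (e + 1)) := by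
      refine Submodule.add_mem _ (K.D_FS hy) ?_
      exact K.G_le_FS le_rfl (by omega) (K.dS_mem hz)
    have h4 := K.indep h2 h3 h0
    refine ⟨K.c_inj _ h4, ?_⟩
    rw [h4, zero_add] at h0
    exact h0

/-- **(U)**: a cycle in `F_(s+1)` with symbol `0` is, modulo boundaries, in `F_s`. -/
theorem symb_zero {s p m b : ℕ} {x : F} (hp : s + 1 + b = p) (hm : e ≤ m)
    (hE : K.ExA (s + 1) b m) (hx : x ∈ K.FS (s + 1) p (m + 1)) (hD : K.D x = 0)
    (h0 : K.rho (K.pr (s + 1) x) = 0) :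
    ∃ w ∈ K.G (s + 1) (b + 1) (m - e), x - K.D w ∈ K.FS s p (m + 1) ∧ K.D (x - K.D w) = 0 := by
  obtain ⟨y, hy, z, rfl, hz, -⟩ := K.FS_succ hx
  have hz1 := hz b hp
  rw [map_add, K.pr_FS (Nat.lt_succ_self s) hy, zero_add, K.pr_same hz1] at h0
  obtain ⟨h1, h2⟩ := K.top_cycle hy hz1 hp hD
  obtain ⟨z', hz', hzc⟩ := K.rho_dv hz1 h0
  have h3 : K.dA z' = 0 := by
    refine K.c_inj _ ?_
    rw [← K.c_dA, hzc, h1]
  obtain ⟨w, hw, hwz⟩ := hE z' hz' h3
  refine ⟨w, hw, ?_, ?_⟩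
  · have e1 : y + z - K.D w = y - K.dS w := by
      rw [D_apply, hwz, hzc]; abel
    rw [e1]
    refine Submodule.sub_mem _ hy ?_
    have h4 := K.dS_mem hw
    have e2 : m - e + (e + 1) = m + 1 := by omega
    rw [e2] at h4
    exact K.G_le_FS le_rfl (by omega) h4
  · rw [map_sub, hD, K.DD, sub_zero]

/-- **(L0)**: lifting of `dA`-cycles from `P(Q)` to `P(U)`. -/
theorem lift_dA {a b m : ℕ} {y : F} (hy : y ∈ K.G a b (m + 1)) (hr : K.rho y = y)
    (hA : K.rho (K.dA y) = 0) (hE : ∀ b', b = b' + 1 → K.ExA a b' (m + e)) :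
    ∃ z ∈ K.G a b (m + 1), K.rho z = y ∧ K.dA z = 0 := by
  rcases b with _ | b
  · exact ⟨y, hy, hr, K.dA_zero hy⟩
  · have h1 := K.dA_mem hy
    have e1 : m + 1 + e = m + e + 1 := by omega
    rw [e1] at h1
    obtain ⟨q, hq, hqc⟩ := K.rho_dv h1 hA
    have h2 : K.dA q = 0 := by
      refine K.c_inj _ ?_
      rw [← K.c_dA, hqc, K.dAdA]
    obtain ⟨r, hr', hrq⟩ := hE b rfl q hq h2
    have e2 : m + e - e = m := by omega
    rw [e2] at hr'
    refine ⟨y - K.c r, Submodule.sub_mem _ hy (K.c_mem hr'), ?_, ?_⟩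
    · rw [map_sub, K.rho_c, sub_zero, hr]
    · rw [map_sub, K.c_dA, hrq, hqc, sub_self]

/-- **(B)**: the symbol `dS w` is the symbol of a boundary. -/
theorem symb_dS {a b m : ℕ} {w : F} (hw : w ∈ K.G (a + 1) b (m + 1)) (hr : K.rho w = w)
    (hA : K.rho (K.dA w) = 0) (hE : ∀ b', b = b' + 1 → K.ExA (a + 1) b' (m + e)) :
    ∃ z ∈ K.G (a + 1) b (m + 1), K.dA z = 0 ∧ K.rho z = w ∧ K.D z = K.dS z ∧
      K.D z ∈ K.G a b (m + 1 + (e + 1)) ∧ K.rho (K.D z) = K.dS w := by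
  obtain ⟨z, hz, hzr, hzA⟩ := K.lift_dA hw hr hA hE
  have h1 : K.D z = K.dS z := by rw [D_apply, hzA, map_zero, add_zero]
  refine ⟨z, hz, hzA, hzr, h1, ?_, ?_⟩
  · rw [h1]; exact K.dS_mem hz
  · rw [h1, K.rho_dS, hzr]

/-- last step of Theorem 1 -/
lemma fin_step {x x' y t : F} (hx : x = K.c x' + K.dS y) (h : K.D x = K.c t) :
    t = K.D (x' - K.dA y) := by
  refine sub_eq_zero.mp (K.c_inj _ ?_)
  rw [map_sub, ← h, hx, map_sub, map_sub, map_add, K.D_c, K.D_apply (K.dS y), K.dSdS, zero_add,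
    K.D_apply (K.dA y), K.dAdA, map_zero, add_zero, K.anti, map_neg]
  abel

/-- **Theorem 1**, `s = 0`. -/
theorem thm_zero {p : ℕ} (hA : K.ExA 0 p (2 * e + 2)) (hS : K.ExS 0 (p + 1) (e + 2)) {x : F}
    (hx : x ∈ K.G 0 p (2 * e + 2)) (hD : K.D x = 0) : ∃ y, K.D y = x := by
  have h1 : K.dA x = 0 := by
    rw [K.D_apply, K.dS_zero hx, zero_add] at hD
    exact K.c_inj _ hD
  obtain ⟨u, hu, hux⟩ := hA x hx h1
  have e1 : 2 * e + 2 - e = e + 2 := by omega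
  rw [e1] at hu
  obtain ⟨y, hy, hyr, hyu⟩ := hS (K.rho u) (K.rho_mem hu) (K.rho_rho u) (K.dS_zero (K.rho_mem hu))
  have e2 : e + 2 - (e + 1) = 1 := by omega
  rw [e2] at hy
  have h2 : u - K.dS y ∈ K.G 0 (p + 1) (e + 1 + 1) := by
    refine Submodule.sub_mem _ hu ?_
    have := K.dS_mem hy
    have e3 : 1 + (e + 1) = e + 1 + 1 := by omega
    rwa [e3] at this
  obtain ⟨u', -, hu'⟩ := K.rho_dv h2 (by rw [map_sub, K.rho_dS, hyr, hyu, sub_self])
  refine ⟨u' - K.dA y, (K.fin_step (x := u) (by rw [hu']; abel) ?_).symm⟩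
  rw [K.D_apply, K.dS_zero hu, zero_add, hux]

/-- **Theorem 1**, `s ≤ 1`. -/
theorem thm_one {p : ℕ} (hA0 : K.ExA 0 p (2 * e + 2)) (hA0' : K.ExA 0 p (2 * e + 3))
    (hA1 : ∀ b, p = b + 1 → K.ExA 1 b (2 * e + 2))
    (hS0 : K.ExS 0 (p + 1) (e + 2)) (hS0' : K.ExS 0 (p + 1) (e + 3)) (hS1 : K.ExS 1 p (e + 2))
    {x : F} (hx : x ∈ K.FS 1 p (2 * e + 2)) (hD : K.D x = 0) : ∃ y, K.D y = x := by
  obtain ⟨y, hy, z, rfl, hz, hz0⟩ := K.FS_succ hx
  rw [K.FS_zero] at hy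
  rcases p with _ | b
  · rw [hz0 (by omega), add_zero] at hD ⊢
    exact K.thm_zero hA0 hS0 hy hD
  · have hz1 := hz b (by omega)
    rw [zero_add] at hz1
    obtain ⟨h1, h2⟩ := K.top_cycle (s := 0) (p := b + 1) (by rw [K.FS_zero]; exact hy)
      hz1 (by omega) hD
    rw [K.D_apply, K.dS_zero hy, zero_add] at h2
    obtain ⟨u1, hu1, hu1z⟩ := hA1 b rfl z hz1 h1
    have e1 : 2 * e + 2 - e = e + 2 := by omega
    rw [e1] at hu1
    have h3 : K.c y - K.dS u1 ∈ K.G 0 (b + 1) (2 * e + 3) := by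
      refine Submodule.sub_mem _ (K.c_mem hy) ?_
      have := K.dS_mem hu1
      have e3 : e + 2 + (e + 1) = 2 * e + 3 := by omega
      rwa [e3] at this
    have h4 : K.dA (K.c y - K.dS u1) = 0 := by
      have : K.dA (K.dS u1) = - K.dS (K.dA u1) := by rw [K.anti, neg_neg]
      rw [map_sub, K.c_dA, this, hu1z, sub_neg_eq_add, h2]
    obtain ⟨v, hv, hvy⟩ := hA0' _ h3 h4
    have e4 : 2 * e + 3 - e = e + 3 := by omega
    rw [e4] at hv
    obtain ⟨w, hw, hwr, hwv⟩ := hS0' (K.rho v) (K.rho_mem hv) (K.rho_rho v)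
      (K.dS_zero (K.rho_mem hv))
    have e5 : e + 3 - (e + 1) = 2 := by omega
    rw [e5] at hw
    have h5 : v - K.dS w ∈ K.G 0 (b + 1 + 1) (e + 2 + 1) := by
      refine Submodule.sub_mem _ hv ?_
      have := K.dS_mem hw
      have e3 : 2 + (e + 1) = e + 2 + 1 := by omega
      rwa [e3] at this
    obtain ⟨x0, hx0, hx0v⟩ := K.rho_dv h5 (by rw [map_sub, K.rho_dS, hwr, hwv, sub_self])
    have hx1 : u1 - K.dA w ∈ K.G 1 (b + 1) (e + 2) := by
      refine Submodule.sub_mem _ hu1 ?_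
      have := K.dA_mem hw
      have e3 : 2 + e = e + 2 := by omega
      rwa [e3] at this
    have h6 : K.c (K.dA x0) = K.c y - K.dS (u1 - K.dA w) := by
      have : K.dA (K.dS w) = - K.dS (K.dA w) := by rw [K.anti, neg_neg]
      rw [← K.c_dA, hx0v, map_sub, hvy, this, map_sub]
      abel
    have h7 : K.D (u1 - K.dA w + x0) = K.c (y + z) := by
      rw [map_add, K.D_apply, K.D_apply, K.dS_zero hx0, h6, map_sub K.dA, hu1z, K.dAdA, sub_zero,
        map_add]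
      abel
    have h8 : K.dS (K.rho (u1 - K.dA w)) = 0 := by
      have : K.dS (u1 - K.dA w) = K.c (y - K.dA x0) := by
        rw [map_sub K.c, h6]; abel
      rw [← K.rho_dS, this, K.rho_c]
    obtain ⟨y2, hy2, hy2r, hy2e⟩ := hS1 _ (K.rho_mem hx1) (K.rho_rho _) h8
    obtain ⟨y1, hy1, hy1r, hy1e⟩ := hS0 _ (K.rho_mem hx0) (K.rho_rho _)
      (K.dS_zero (K.rho_mem hx0))
    have e6 : e + 2 - (e + 1) = 1 := by omega
    rw [e6] at hy2 hy1
    have e7 : 1 + (e + 1) = e + 1 + 1 := by omega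
    have h9 : u1 - K.dA w - K.dS y2 ∈ K.G 1 (b + 1) (e + 1 + 1) := by
      refine Submodule.sub_mem _ hx1 ?_
      have := K.dS_mem hy2
      rwa [e7] at this
    have h10 : x0 - K.dS y1 ∈ K.G 0 (b + 1 + 1) (e + 1 + 1) := by
      refine Submodule.sub_mem _ hx0 ?_
      have := K.dS_mem hy1
      rwa [e7] at this
    obtain ⟨a1, -, ha1⟩ := K.rho_dv h9 (by rw [map_sub, K.rho_dS, hy2r, hy2e, sub_self])
    obtain ⟨a0, -, ha0⟩ := K.rho_dv h10 (by rw [map_sub, K.rho_dS, hy1r, hy1e, sub_self])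
    refine ⟨a1 + a0 - K.dA (y2 + y1), (K.fin_step ?_ h7).symm⟩
    rw [map_add, map_add, ha1, ha0]
    abel

end BiK

end Pool.Agent.H80.OP
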