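import Pool.Agent.H27.OP.Wt

set_option autoImplicit false
set_option linter.unusedSectionVars false

/-!
# Ottaviani-Paoletti: second quantisation

`QT T = ∑ Ee (T x^μ) J_μ` for a linear map `T` of the polynomial ring which keeps the forms of
degree `d`, and `dl π = ∑ m (π x^μ) J_μ`.
-/

open MvPolynomial

namespace Pool.Agent.H80.OP

open Pool.Agent.H27.OP

variable {σ k : Type*} [Fintype σ] [Field k]
variable {O : Type*} [Ring O] [Algebra k O] {d : ℕ} (S : Fk σ k O d)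

/-- `T` keeps the forms of degree `d` -/
def HD (d : ℕ) (T : MvPolynomial σ k →ₗ[k] MvPolynomial σ k) : Prop :=
  ∀ μ ∈ Mo σ d, (T (monomial μ 1)).IsHomogeneous d

/-- second quantisation -/
noncomputable def QT (S : Fk σ k O d) (T : MvPolynomial σ k →ₗ[k] MvPolynomial σ k) : O :=
  ∑ μ ∈ Mo σ d, S.Ee (T (monomial μ 1)) * S.J μ

/-- differentials -/
noncomputable def dl (S : Fk σ k O d) (π : MvPolynomial σ k →ₗ[k] MvPolynomial σ k) : O :=
  ∑ μ ∈ Mo σ d, S.m (π (monomial μ 1)) * S.J μ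

lemma HD.hom {T : MvPolynomial σ k →ₗ[k] MvPolynomial σ k} (hT : HD d T) {e : MvPolynomial σ k}
    (he : e.IsHomogeneous d) : (T e).IsHomogeneous d := by
  have h := sum_coeff (LinearMap.id : MvPolynomial σ k →ₗ[k] MvPolynomial σ k) he
  simp only [LinearMap.id_apply] at h
  rw [← h, map_sum]
  refine IsHomogeneous.sum _ _ _ fun μ hμ => ?_
  rw [map_smul, smul_eq_C_mul]
  exact (hT μ hμ).C_mul _

lemma QT_congr {T T' : MvPolynomial σ k →ₗ[k] MvPolynomial σ k}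
    (h : ∀ μ ∈ Mo σ d, T (monomial μ 1) = T' (monomial μ 1)) : QT S T = QT S T' :=
  Finset.sum_congr rfl fun μ hμ => by rw [h μ hμ]

lemma dl_congr {T T' : MvPolynomial σ k →ₗ[k] MvPolynomial σ k}
    (h : ∀ μ ∈ Mo σ d, T (monomial μ 1) = T' (monomial μ 1)) : dl S T = dl S T' :=
  Finset.sum_congr rfl fun μ hμ => by rw [h μ hμ]

lemma QT_add (T T' : MvPolynomial σ k →ₗ[k] MvPolynomial σ k) :
    QT S (T + T') = QT S T + QT S T' := by
  unfold QT
  rw [← Finset.sum_add_distrib]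
  refine Finset.sum_congr rfl fun μ _ => ?_
  rw [LinearMap.add_apply, map_add, add_mul]

lemma QT_smul (t : k) (T : MvPolynomial σ k →ₗ[k] MvPolynomial σ k) :
    QT S (t • T) = t • QT S T := by
  unfold QT
  rw [Finset.smul_sum]
  refine Finset.sum_congr rfl fun μ _ => ?_
  rw [LinearMap.smul_apply, map_smul, smul_mul_assoc]

lemma QT_zero : QT S (0 : MvPolynomial σ k →ₗ[k] MvPolynomial σ k) = 0 := by
  unfold QT
  refine Finset.sum_eq_zero fun μ _ => ?_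
  rw [LinearMap.zero_apply, map_zero, zero_mul]

lemma QT_sub (T T' : MvPolynomial σ k →ₗ[k] MvPolynomial σ k) :
    QT S (T - T') = QT S T - QT S T' := by
  unfold QT
  rw [← Finset.sum_sub_distrib]
  refine Finset.sum_congr rfl fun μ _ => ?_
  rw [LinearMap.sub_apply, map_sub, sub_mul]

lemma dl_add (T T' : MvPolynomial σ k →ₗ[k] MvPolynomial σ k) :
    dl S (T + T') = dl S T + dl S T' := by
  unfold dl
  rw [← Finset.sum_add_distrib]
  refine Finset.sum_congr rfl fun μ _ => ?_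
  rw [LinearMap.add_apply, map_add, add_mul]

lemma dl_zero : dl S (0 : MvPolynomial σ k →ₗ[k] MvPolynomial σ k) = 0 := by
  unfold dl
  refine Finset.sum_eq_zero fun μ _ => ?_
  rw [LinearMap.zero_apply, map_zero, zero_mul]

lemma dl_sub (T T' : MvPolynomial σ k →ₗ[k] MvPolynomial σ k) :
    dl S (T - T') = dl S T - dl S T' := by
  unfold dl
  rw [← Finset.sum_sub_distrib]
  refine Finset.sum_congr rfl fun μ _ => ?_
  rw [LinearMap.sub_apply, map_sub, sub_mul]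

lemma dl_smul (t : k) (T : MvPolynomial σ k →ₗ[k] MvPolynomial σ k) :
    dl S (t • T) = t • dl S T := by
  unfold dl
  rw [Finset.smul_sum]
  refine Finset.sum_congr rfl fun μ _ => ?_
  rw [LinearMap.smul_apply, map_smul, smul_mul_assoc]

lemma QT_Ee (T : MvPolynomial σ k →ₗ[k] MvPolynomial σ k) {e : MvPolynomial σ k}
    (he : e.IsHomogeneous d) : QT S T * S.Ee e = S.Ee e * QT S T + S.Ee (T e) := by
  unfold QT
  rw [Finset.sum_mul, Finset.mul_sum]
  have : ∀ μ ∈ Mo σ d, S.Ee (T (monomial μ 1)) * S.J μ * S.Ee e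
      = coeff μ e • (S.Ee.comp T) (monomial μ 1)
        + S.Ee e * (S.Ee (T (monomial μ 1)) * S.J μ) := by
    intro μ hμ
    rw [mul_assoc, S.JEe hμ, mul_sub, mul_smul_comm, mul_one, ← mul_assoc, S.EeEe _ e, neg_mul,
      sub_neg_eq_add, mul_assoc]
    rfl
  rw [Finset.sum_congr rfl this, Finset.sum_add_distrib, sum_coeff _ he, add_comm]
  rfl

lemma QT_m (T : MvPolynomial σ k →ₗ[k] MvPolynomial σ k) (a : MvPolynomial σ k) :
    QT S T * S.m a = S.m a * QT S T := by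
  unfold QT
  rw [Finset.sum_mul, Finset.mul_sum]
  refine Finset.sum_congr rfl fun μ _ => ?_
  rw [mul_assoc, ← S.mJ, ← mul_assoc, ← S.mEe, mul_assoc]

lemma QT_T (T : MvPolynomial σ k →ₗ[k] MvPolynomial σ k) (x : σ) :
    QT S T * S.T x = S.T x * QT S T := by
  unfold QT
  rw [Finset.sum_mul, Finset.mul_sum]
  refine Finset.sum_congr rfl fun μ _ => ?_
  rw [mul_assoc, ← S.TJ, ← mul_assoc, ← S.TEe, mul_assoc]

lemma QT_J (T : MvPolynomial σ k →ₗ[k] MvPolynomial σ k) {ν : σ →₀ ℕ} (hν : ν ∈ Mo σ d) :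
    QT S T * S.J ν = S.J ν * QT S T - ∑ μ ∈ Mo σ d, coeff ν (T (monomial μ 1)) • S.J μ := by
  unfold QT
  rw [Finset.sum_mul, Finset.mul_sum, ← Finset.sum_sub_distrib]
  refine Finset.sum_congr rfl fun μ _ => ?_
  rw [mul_assoc, S.JJ μ ν, mul_neg, ← mul_assoc, ← mul_assoc, S.JEe hν, sub_mul, smul_mul_assoc,
    one_mul]
  abel

/-- `∑_μ L(x^μ) [QT, J_μ]` -/
lemma sum_QT_J {T : MvPolynomial σ k →ₗ[k] MvPolynomial σ k} (hT : HD d T)
    (L : MvPolynomial σ k →ₗ[k] O) :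
    ∑ μ ∈ Mo σ d, L (monomial μ 1) * (QT S T * S.J μ)
      = ∑ μ ∈ Mo σ d, L (monomial μ 1) * (S.J μ * QT S T)
        - ∑ μ ∈ Mo σ d, L (T (monomial μ 1)) * S.J μ := by
  have h1 : ∀ μ ∈ Mo σ d, L (monomial μ 1) * (QT S T * S.J μ)
      = L (monomial μ 1) * (S.J μ * QT S T)
        - ∑ ν ∈ Mo σ d, coeff μ (T (monomial ν 1)) • (L (monomial μ 1) * S.J ν) := by
    intro μ hμ
    rw [QT_J S T hμ, mul_sub, Finset.mul_sum]
    simp only [mul_smul_comm]
  rw [Finset.sum_congr rfl h1, Finset.sum_sub_distrib, Finset.sum_comm]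
  congr 1
  refine Finset.sum_congr rfl fun ν hν => ?_
  rw [← sum_coeff L (hT ν hν), Finset.sum_mul]
  simp only [smul_mul_assoc]

lemma QT_QT {T T' : MvPolynomial σ k →ₗ[k] MvPolynomial σ k} (hT : HD d T) (hT' : HD d T') :
    QT S T * QT S T' = QT S T' * QT S T + QT S (T ∘ₗ T') - QT S (T' ∘ₗ T) := by
  have h0 : QT S T' = ∑ μ ∈ Mo σ d, S.Ee (T' (monomial μ 1)) * S.J μ := rfl
  have h3 : ∀ μ ∈ Mo σ d, QT S T * (S.Ee (T' (monomial μ 1)) * S.J μ)
      = (S.Ee.comp T') (monomial μ 1) * (QT S T * S.J μ)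
        + S.Ee (T (T' (monomial μ 1))) * S.J μ := by
    intro μ hμ
    rw [← mul_assoc, QT_Ee S T (hT' μ hμ), add_mul, mul_assoc]
    rfl
  have h5 : ∀ μ ∈ Mo σ d, (S.Ee.comp T') (monomial μ 1) * (S.J μ * QT S T)
      = (S.Ee (T' (monomial μ 1)) * S.J μ) * QT S T := by
    intro μ _
    rw [mul_assoc, LinearMap.comp_apply]
  rw [h0, Finset.mul_sum, Finset.sum_congr rfl h3, Finset.sum_add_distrib, sum_QT_J S hT,
    Finset.sum_mul, Finset.sum_congr rfl h5]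
  have h6 : ∑ μ ∈ Mo σ d, S.Ee (T (T' (monomial μ 1))) * S.J μ = QT S (T ∘ₗ T') := rfl
  have h7 : ∑ μ ∈ Mo σ d, (S.Ee.comp T') (T (monomial μ 1)) * S.J μ = QT S (T' ∘ₗ T) := rfl
  rw [h6, h7]
  abel

lemma dl_m (π : MvPolynomial σ k →ₗ[k] MvPolynomial σ k) (a : MvPolynomial σ k) :
    dl S π * S.m a = S.m a * dl S π := by
  unfold dl
  rw [Finset.sum_mul, Finset.mul_sum]
  refine Finset.sum_congr rfl fun μ _ => ?_
  rw [mul_assoc, ← S.mJ, ← mul_assoc, S.mm, mul_assoc]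

lemma dl_J (π : MvPolynomial σ k →ₗ[k] MvPolynomial σ k) (ν : σ →₀ ℕ) :
    dl S π * S.J ν = -(S.J ν * dl S π) := by
  unfold dl
  rw [Finset.sum_mul, Finset.mul_sum, ← Finset.sum_neg_distrib]
  refine Finset.sum_congr rfl fun μ _ => ?_
  rw [mul_assoc, S.JJ, mul_neg, ← mul_assoc, S.mJ, mul_assoc]

lemma dl_Ee (π : MvPolynomial σ k →ₗ[k] MvPolynomial σ k) {e : MvPolynomial σ k}
    (he : e.IsHomogeneous d) : dl S π * S.Ee e = S.m (π e) - S.Ee e * dl S π := by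
  unfold dl
  rw [Finset.sum_mul, Finset.mul_sum]
  have h : ∀ μ ∈ Mo σ d, S.m (π (monomial μ 1)) * S.J μ * S.Ee e
      = coeff μ e • (S.m.toLinearMap.comp π) (monomial μ 1)
        - S.Ee e * (S.m (π (monomial μ 1)) * S.J μ) := by
    intro μ hμ
    rw [mul_assoc, S.JEe hμ, mul_sub, mul_smul_comm, mul_one, ← mul_assoc, S.mEe, mul_assoc]
    rfl
  rw [Finset.sum_congr rfl h, Finset.sum_sub_distrib, sum_coeff _ he]
  rfl

lemma dl_dl (π π' : MvPolynomial σ k →ₗ[k] MvPolynomial σ k) :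
    dl S π * dl S π' = -(dl S π' * dl S π) := by
  have h0 : dl S π' = ∑ μ ∈ Mo σ d, S.m (π' (monomial μ 1)) * S.J μ := rfl
  rw [h0, Finset.mul_sum, Finset.sum_mul, ← Finset.sum_neg_distrib]
  refine Finset.sum_congr rfl fun μ _ => ?_
  rw [← mul_assoc, dl_m, mul_assoc, dl_J, mul_neg, ← mul_assoc]

lemma QT_dl {T : MvPolynomial σ k →ₗ[k] MvPolynomial σ k} (hT : HD d T)
    (π : MvPolynomial σ k →ₗ[k] MvPolynomial σ k) :
    QT S T * dl S π = dl S π * QT S T - dl S (π ∘ₗ T) := by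
  have h0 : dl S π = ∑ μ ∈ Mo σ d, S.m (π (monomial μ 1)) * S.J μ := rfl
  have h3 : ∀ μ ∈ Mo σ d, QT S T * (S.m (π (monomial μ 1)) * S.J μ)
      = (S.m.toLinearMap.comp π) (monomial μ 1) * (QT S T * S.J μ) := by
    intro μ _
    rw [← mul_assoc, QT_m, mul_assoc]
    rfl
  have h5 : ∀ μ ∈ Mo σ d, (S.m.toLinearMap.comp π) (monomial μ 1) * (S.J μ * QT S T)
      = (S.m (π (monomial μ 1)) * S.J μ) * QT S T := by
    intro μ _
    rw [mul_assoc]
    rfl
  rw [h0, Finset.mul_sum, Finset.sum_congr rfl h3, sum_QT_J S hT,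
    Finset.sum_mul, Finset.sum_congr rfl h5]
  rfl

lemma T_dl (x : σ) (π : MvPolynomial σ k →ₗ[k] MvPolynomial σ k) :
    S.T x * dl S π = dl S π * S.T x + dl S ((pderiv x).toLinearMap ∘ₗ π) := by
  unfold dl
  rw [Finset.mul_sum, Finset.sum_mul, ← Finset.sum_add_distrib]
  refine Finset.sum_congr rfl fun μ _ => ?_
  rw [← mul_assoc, S.Tm, add_mul, mul_assoc, S.TJ, ← mul_assoc]
  rfl

lemma D_eq (c : MvPolynomial σ k) (y : σ) :
    S.D c y = S.m c * S.T y + QT S (Fk.cpd c y) := rfl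

lemma HD_cpd {c : MvPolynomial σ k} (hc : c.IsHomogeneous 1) (y : σ) :
    HD d (Fk.cpd c y) := fun _ hμ =>
  Fk.hom_cpd hc y (isHomogeneous_monomial _ (mem_Mo.mp hμ))

lemma m_dl (c : MvPolynomial σ k) (π : MvPolynomial σ k →ₗ[k] MvPolynomial σ k) :
    S.m c * dl S π = dl S (LinearMap.mulLeft k c ∘ₗ π) := by
  unfold dl
  rw [Finset.mul_sum]
  refine Finset.sum_congr rfl fun μ _ => ?_
  rw [← mul_assoc, ← map_mul]
  rfl

lemma D_dl {c : MvPolynomial σ k} (hc : c.IsHomogeneous 1) (y : σ)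
    (π : MvPolynomial σ k →ₗ[k] MvPolynomial σ k) :
    S.D c y * dl S π = dl S π * S.D c y + dl S (Fk.cpd c y ∘ₗ π) - dl S (π ∘ₗ Fk.cpd c y) := by
  rw [D_eq, add_mul, mul_add, QT_dl S (HD_cpd hc y), mul_assoc, T_dl, mul_add, m_dl,
    ← mul_assoc (dl S π), dl_m, ← mul_assoc (S.m c)]
  have : LinearMap.mulLeft k c ∘ₗ ((pderiv y).toLinearMap ∘ₗ π) = Fk.cpd c y ∘ₗ π := rfl
  rw [this]
  abel

end Pool.Agent.H80.OP
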