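import Pool.Agent.H80.OP.Phi2

set_option autoImplicit false
set_option linter.unusedSectionVars false

/-!
# Full Ottaviani-Paoletti, part (T): `sl₂` on the letters `μ o ≥ 2`
-/

open MvPolynomial

namespace Pool.Agent.H80.OP

open Pool.Agent.H27.OP Pool.Agent.H20.OPF Pool.Agent.H12.OP

section nil

variable {k V : Type} [Field k] [CharZero k] [AddCommGroup V] [Module k V]

/-- a lowering operator for a diagonal operator with natural eigenvalues is nilpotent -/
lemma nil_of (G : Submodule k V) (H L : Module.End k V) (hH : ∀ v ∈ G, H v ∈ G)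
    (hL : ∀ v ∈ G, L v ∈ G) (hHL : H * L = L * H - L) (M : ℕ) (hM : ∀ v ∈ G, dp H M v = 0) :
    ∀ v ∈ G, (L ^ M) v = 0 := by
  have hp : ∀ a : ℕ, ∀ v ∈ G, (L ^ a) v ∈ G := by
    intro a
    induction a with
    | zero => intro v hv; simpa using hv
    | succ a ih =>
      intro v hv
      rw [pow_succ', Module.End.mul_apply]
      exact hL _ (ih v hv)
  have hHL' : ∀ v, H (L v) = L (H v) - L v := fun v => by
    have := congrArg (fun g : Module.End k V => g v) hHL
    simpa only [LinearMap.sub_apply, Module.End.mul_apply] using this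
  intro v hv
  have h1 := eig1 H G hH M v hv (hM v hv)
  refine Submodule.span_induction (p := fun v _ => (L ^ M) v = 0) ?_ (map_zero _)
    (fun x y _ _ hx hy => by rw [map_add, hx, hy, add_zero])
    (fun t x _ hx => by rw [map_smul, hx, smul_zero]) h1
  rintro u ⟨hu, n, hn⟩
  by_cases h0 : u = 0
  · rw [h0, map_zero]
  have h2 := hM u hu
  rw [dp_eig H hn] at h2
  rcases smul_eq_zero.mp h2 with h3 | h3
  · rw [Finset.prod_eq_zero_iff] at h3
    obtain ⟨i, hi, hi'⟩ := h3
    have h4 : n = i := Nat.cast_injective (sub_eq_zero.mp hi')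
    rw [Finset.mem_range] at hi
    have h5 : ∀ a : ℕ, H ((L ^ a) u) = ((n : k) - a) • (L ^ a) u := by
      intro a
      induction a with
      | zero => simp [hn]
      | succ a ih =>
        rw [pow_succ', Module.End.mul_apply, hHL', ih, map_smul, Nat.cast_add, Nat.cast_one]
        rw [sub_add_eq_sub_sub, sub_smul _ (1 : k), one_smul]
    have h6 : (L ^ (n + 1)) u = 0 := by
      refine dp_neg H (t := 0) (M := M) ?_ (hM _ (hp _ u hu))
      rw [h5]
      congr 1
      push_cast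
      ring
    have h7 : M = (M - (n + 1)) + (n + 1) := by omega
    rw [h7, pow_add, Module.End.mul_apply, h6, map_zero]
  · exact absurd h3 h0

end nil

section maps

variable {σ k : Type} [Fintype σ] [Field k]

/-- `X_o ∂_x` on the letters `μ o ≥ 2` -/
noncomputable def Te (k : Type) [Field k] (o x : σ) : MvPolynomial σ k →ₗ[k] MvPolynomial σ k :=
  Fk.cpd (X o) x ∘ₗ dg (g2 k o)

/-- `X_x ∂_o` acting on `g` for the letters `X_o^2 g` -/
noncomputable def Tf (k : Type) [Field k] (o x : σ) : MvPolynomial σ k →ₗ[k] MvPolynomial σ k :=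
  lmk fun μ => if 2 ≤ μ o then ((μ o : k) - 2) • monomial (mv x o μ) 1 else 0

/-- weight of the `g` -/
def th (k : Type) [Field k] (o x : σ) (μ : σ →₀ ℕ) : k :=
  if 2 ≤ μ o then (μ o : k) - 2 - μ x else 0

lemma Te_mon {o x : σ} {μ : σ →₀ ℕ} (h : 2 ≤ μ o) :
    Te k o x (monomial μ 1) = (μ x : k) • monomial (mv o x μ) 1 := by
  unfold Te
  have : g2 k o μ = 1 := by unfold g2; rw [if_pos h]
  rw [LinearMap.comp_apply, dg_mon, this, one_smul, cpd_mon]

lemma Te_mon0 {o x : σ} {μ : σ →₀ ℕ} (h : ¬ 2 ≤ μ o) :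
    Te k o x (monomial μ 1) = 0 := by
  unfold Te
  have : g2 k o μ = 0 := by unfold g2; rw [if_neg h]
  rw [LinearMap.comp_apply, dg_mon, this, zero_smul, map_zero]

lemma Tf_mon {o x : σ} {μ : σ →₀ ℕ} (h : 2 ≤ μ o) :
    Tf k o x (monomial μ 1) = ((μ o : k) - 2) • monomial (mv x o μ) 1 := by
  unfold Tf
  rw [lmk_mon, if_pos h]

lemma Tf_mon0 {o x : σ} {μ : σ →₀ ℕ} (h : ¬ 2 ≤ μ o) :
    Tf k o x (monomial μ 1) = 0 := by
  unfold Tf
  rw [lmk_mon, if_neg h]

lemma coeff_Tf {o x : σ} {μ ν : σ →₀ ℕ} (h : coeff ν (Tf k o x (monomial μ 1)) ≠ 0) :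
    ν = mv x o μ ∧ 3 ≤ μ o := by
  by_cases h2 : 2 ≤ μ o
  · rw [Tf_mon h2] at h
    obtain ⟨h3, h4⟩ := coeff_smul_mon h
    refine ⟨h3, ?_⟩
    by_contra h5
    have h6 : μ o = 2 := by omega
    rw [h6] at h4
    apply h4
    push_cast
    ring
  · rw [Tf_mon0 h2, coeff_zero] at h
    exact absurd rfl h

lemma HD_Te {d : ℕ} (o x : σ) : HD d (Te k o x) := HD_cpd_dg _ _ _

lemma HD_Tf {d : ℕ} (o x : σ) : HD d (Tf k o x) := by
  intro μ hμ
  by_cases h : 2 ≤ μ o
  · rw [Tf_mon h, smul_eq_C_mul]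
    exact (isHomogeneous_monomial _ (mem_Mo.mp (mv_Mo hμ (by omega)))).C_mul _
  · rw [Tf_mon0 h]
    exact isHomogeneous_zero _ _ _

lemma ImW_Te {d : ℕ} {o x : σ} (hx : x ≠ o) : ImW d o (Te k o x) := by
  intro μ _ ν _ hc
  obtain ⟨h1, _, h3⟩ := coeff_cpd_dg hc
  have h4 : 2 ≤ μ o := by
    by_contra h4
    exact h3 (by unfold g2; rw [if_neg h4])
  rw [h1, mv_to (Ne.symm hx)]
  omega

lemma ImW_Tf {d : ℕ} {o x : σ} (hx : x ≠ o) : ImW d o (Tf k o x) := by
  intro μ _ ν _ hc
  obtain ⟨h1, h2⟩ := coeff_Tf hc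
  rw [h1, mv_from hx]
  omega

lemma comm_ef {d : ℕ} {o x : σ} (hx : x ≠ o) : ∀ μ ∈ Mo σ d,
    (Te k o x ∘ₗ Tf k o x - Tf k o x ∘ₗ Te k o x) (monomial μ 1) = dg (th k o x) (monomial μ 1) := by
  intro μ _
  rw [LinearMap.sub_apply, LinearMap.comp_apply, LinearMap.comp_apply, dg_mon]
  unfold th
  by_cases h : 2 ≤ μ o
  · rw [Tf_mon h, Te_mon h, map_smul, map_smul, if_pos h]
    have e1 : ((μ o : k) - 2) • Te k o x (monomial (mv x o μ) 1)
        = (((μ o : k) - 2) * (μ x + 1)) • monomial μ (1 : k) := by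
      rcases Nat.lt_or_ge (μ o) 3 with h3 | h3
      · have h6 : μ o = 2 := by omega
        rw [h6]; push_cast
        rw [sub_self, zero_smul, zero_mul, zero_smul]
      · rw [Te_mon (by rw [mv_from hx]; omega), mv_to hx, mv_mv hx (by omega), smul_smul]
        push_cast
        rfl
    have e2 : (μ x : k) • Tf k o x (monomial (mv o x μ) 1)
        = ((μ x : k) * (μ o - 1)) • monomial μ (1 : k) := by
      rcases Nat.eq_zero_or_pos (μ x) with h3 | h3
      · rw [h3, Nat.cast_zero, zero_smul, zero_mul, zero_smul]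
      · rw [Tf_mon (by rw [mv_to (Ne.symm hx)]; omega), mv_to (Ne.symm hx),
          mv_mv (Ne.symm hx) h3, smul_smul]
        congr 2
        push_cast
        ring
    rw [e1, e2, ← sub_smul]
    congr 1
    ring
  · rw [Tf_mon0 h, Te_mon0 h, map_zero, map_zero, if_neg h, zero_smul, sub_zero]

lemma comm_hf {d : ℕ} {o x : σ} (hx : x ≠ o) : ∀ μ ∈ Mo σ d,
    (dg (th k o x) ∘ₗ Tf k o x - Tf k o x ∘ₗ dg (th k o x)) (monomial μ 1)
      = (-(2 : k) • Tf k o x) (monomial μ 1) := by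
  intro μ _
  rw [LinearMap.sub_apply, LinearMap.comp_apply, LinearMap.comp_apply, dg_mon,
    LinearMap.smul_apply, map_smul]
  by_cases h : 2 ≤ μ o
  · rw [Tf_mon h, map_smul, dg_mon]
    rcases Nat.lt_or_ge (μ o) 3 with h3 | h3
    · have h6 : μ o = 2 := by omega
      have h7 : ((μ o : k) - 2) = 0 := by rw [h6]; push_cast; ring
      rw [h7, zero_smul, zero_smul, smul_zero, smul_zero, sub_zero]
    · have e1 : th k o x (mv x o μ) = th k o x μ - 2 := by
        unfold th
        rw [if_pos (by rw [mv_from hx]; omega), if_pos h, mv_from hx, mv_to hx,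
          Nat.cast_sub (by omega)]
        push_cast
        ring
      rw [e1]
      simp only [smul_smul]
      rw [← sub_smul]
      congr 1
      ring
  · rw [Tf_mon0 h, map_zero, smul_zero, smul_zero, sub_zero]

end maps

end Pool.Agent.H80.OP
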