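import Pool.Agent.H80.OP.Sl
import Pool.Agent.H12.OP.Sl2Hom
import Pool.Agent.H30.OP.Nil

set_option autoImplicit false
set_option linter.unusedSectionVars false

/-!
# Full Ottaviani-Paoletti, part (T): vanishing on vectors of large weight
-/

open MvPolynomial

namespace Pool.Agent.H80.OP

open Pool.Agent.H27.OP Pool.Agent.H20.OPF Pool.Agent.H12.OP

variable {σ k F : Type} [Fintype σ] [Field k] [AddCommGroup F] [Module k F] {e : ℕ}
variable {S : Fk σ k (Module.End k F) (e + 1)} {A : Gr S} {o : σ} {K : BiK k F e}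

/-- maps between the letters `μ o ≥ 2` -/
def WW (d : ℕ) (o : σ) (T : MvPolynomial σ k →ₗ[k] MvPolynomial σ k) : Prop :=
  ∀ μ ∈ Mo σ d, ∀ ν ∈ Mo σ d, coeff ν (T (monomial μ 1)) ≠ 0 → 2 ≤ ν o ∧ 2 ≤ μ o

lemma WW.ImW {d : ℕ} {T : MvPolynomial σ k →ₗ[k] MvPolynomial σ k} (h : WW d o T) :
    ImW d o T := fun μ hμ ν hν hc => ⟨(h μ hμ ν hν hc).1, by have := (h μ hμ ν hν hc).2; omega⟩

lemma WW_Te {d : ℕ} {x : σ} (hx : x ≠ o) : WW d o (Te k o x) := by
  intro μ _ ν _ hc
  obtain ⟨h1, _, h3⟩ := coeff_cpd_dg hc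
  have h4 : 2 ≤ μ o := by
    by_contra h4
    exact h3 (by unfold g2; rw [if_neg h4])
  rw [h1, mv_to (Ne.symm hx)]
  omega

lemma WW_Tf {d : ℕ} {x : σ} (hx : x ≠ o) : WW d o (Tf k o x) := by
  intro μ _ ν _ hc
  obtain ⟨h1, h2⟩ := coeff_Tf hc
  rw [h1, mv_from hx]
  omega

lemma WW_th {d : ℕ} {x : σ} : WW d o (dg (th k o x)) := by
  intro μ _ ν _ hc
  rw [dg_mon] at hc
  obtain ⟨h1, h2⟩ := coeff_smul_mon hc
  have h3 : 2 ≤ μ o := by
    by_contra h4
    exact h2 (by unfold th; rw [if_neg h4])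
  rw [h1]
  exact ⟨h3, h3⟩

lemma DQ_QT {T : MvPolynomial σ k →ₗ[k] MvPolynomial σ k} (hT : HD (e + 1) T)
    (h : WW (e + 1) o T) (x : σ) : DQ S o x * QT S T = QT S T * DQ S o x := by
  have h1 : DQ S o x = S.m (X x) * S.T x
      + Ng S (fun μ => if 2 ≤ μ o then 0 else (μ x : k)) := by
    unfold DQ
    rw [D_eq, QT_cpd_diag, add_sub_assoc]
    congr 1
    rw [Ng_eq, Ng_eq, Ng_eq, ← Finset.sum_sub_distrib]
    refine Finset.sum_congr rfl fun μ _ => ?_
    rw [← sub_smul]
    congr 1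
    unfold g2
    split_ifs
    · ring
    · ring
  rw [h1, add_mul, mul_add, mul_assoc, ← QT_T, ← mul_assoc, ← QT_m, mul_assoc,
    Ng_QT S _ hT (t := 0) (by
      intro μ hμ ν hν hc
      obtain ⟨h2, h3⟩ := h μ hμ ν hν hc
      rw [if_pos h2, if_pos h3, add_zero]), zero_smul, add_zero]

/-- the weight space `V` -/
def VV (S : Fk σ k (Module.End k F) (e + 1)) (o : σ) (K : BiK k F e) (s b m j : ℕ) (x : σ)
    (w : ℕ) : Submodule k F where
  carrier := {y | y ∈ Cl K s b m ∧ Ng S (g2 k o) y = (j : k) • y ∧ DQ S o x y = (w : k) • y}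
  add_mem' := by
    rintro y y' ⟨h1, h2, h3⟩ ⟨g1, g2', g3⟩
    exact ⟨add_mem h1 g1, by rw [map_add, h2, g2', smul_add], by rw [map_add, h3, g3, smul_add]⟩
  zero_mem' := ⟨zero_mem _, by rw [map_zero, smul_zero], by rw [map_zero, smul_zero]⟩
  smul_mem' := by
    rintro t y ⟨h1, h2, h3⟩
    exact ⟨Submodule.smul_mem _ _ h1, by rw [map_smul, h2, smul_comm],
      by rw [map_smul, h3, smul_comm]⟩

lemma mem_VV {s b m j : ℕ} {x : σ} {w : ℕ} {y : F} : y ∈ VV S o K s b m j x w ↔
    y ∈ Cl K s b m ∧ Ng S (g2 k o) y = (j : k) • y ∧ DQ S o x y = (w : k) • y := Iff.rfl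

lemma VV_QT (C : Cmp S A o K) {T : MvPolynomial σ k →ₗ[k] MvPolynomial σ k} (hT : HD (e + 1) T)
    (h : WW (e + 1) o T) {s b m j : ℕ} {x : σ} {w : ℕ} :
    ∀ y ∈ VV S o K s b m j x w, QT S T y ∈ VV S o K s b m j x w := by
  rintro y ⟨h1, h2, h3⟩
  refine ⟨Cl_QT C hT h.ImW h1, ?_, ?_⟩
  · have h6 := app_eq (Ng_QT S (g2 k o) hT (t := 0) (by
      intro μ hμ ν hν hc
      obtain ⟨h7, h8⟩ := h μ hμ ν hν hc
      unfold g2
      rw [if_pos h7, if_pos h8, add_zero])) y
    rw [zero_smul, add_zero, Module.End.mul_apply, Module.End.mul_apply, h2, map_smul] at h6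
    exact h6
  · have h6 := app_eq (DQ_QT (S := S) hT h x) y
    rw [Module.End.mul_apply, Module.End.mul_apply, h3, map_smul] at h6
    exact h6

lemma LN_rel1 (C : Cmp S A o K) (x : σ) :
    LN C o x * LN C x o - LN C x o * LN C o x = LN C o o - LN C x x := by
  have h1 := S.D_D (hom_X o) (hom_X x) x o
  rw [pderiv_X_self, pderiv_X_self, mul_one, mul_one] at h1
  refine LinearMap.ext fun z => ?_
  obtain ⟨Θ, rfl⟩ := Submodule.mkQ_surjective _ z
  simp only [LinearMap.sub_apply, Module.End.mul_apply, LN_mk]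
  rw [← map_sub, ← map_sub]
  congr 1
  have h2 := app_eq h1 Θ
  simp only [LinearMap.sub_apply, LinearMap.add_apply, Module.End.mul_apply] at h2
  rw [h2]
  abel

lemma D_zero {O : Type} [Ring O] [Algebra k O] {d : ℕ} (S : Fk σ k O d) (z : σ) :
    S.D (0 : MvPolynomial σ k) z = 0 := by
  have := S.D_smul 0 (0 : MvPolynomial σ k) z
  simpa using this

lemma LN_rel2 (C : Cmp S A o K) {x : σ} (hx : x ≠ o) :
    (LN C o o - LN C x x) * LN C x o - LN C x o * (LN C o o - LN C x x)
      = -(2 : k) • LN C x o := by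
  have h1 := S.D_D (hom_X o) (hom_X x) o o
  rw [pderiv_X_self, mul_one, pderiv_X_of_ne hx, mul_zero, D_zero, add_zero] at h1
  have h2 := S.D_D (hom_X x) (hom_X x) x o
  rw [pderiv_X_self, mul_one, pderiv_X_of_ne hx, mul_zero, D_zero, sub_zero] at h2
  refine LinearMap.ext fun z => ?_
  obtain ⟨Θ, rfl⟩ := Submodule.mkQ_surjective _ z
  have h3 := app_eq h1 Θ
  have h4 := app_eq h2 Θ
  simp only [LinearMap.sub_apply, LinearMap.add_apply, Module.End.mul_apply] at h3 h4
  simp only [LinearMap.sub_apply, Module.End.mul_apply, LN_mk, LinearMap.smul_apply, map_sub]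
  rw [h3, h4, map_sub, map_add, neg_smul, two_smul]
  abel

/-- **Vanishing on vectors of large weight.** -/
theorem wt_zero [CharZero k] (C : Cmp S A o K) {p s b : ℕ} (Q : Ph C p s b)
    {i j : ℕ} (hij : i + j = b)
    (hj : ∀ y ∈ Cl K s b (2 * e + 2), Ng S (g2 k o) y = ((j + 1 : ℕ) : k) • y → Q.φ y = 0)
    {x : σ} (hx : x ≠ o) {w : ℕ} (hw : i + 2 * j < w) {y : F}
    (hy : y ∈ Cl K s b (2 * e + 2)) (hN : Ng S (g2 k o) y = (j : k) • y)
    (hq : DQ S o x y = (w : k) • y) : Q.φ y = 0 := by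
  -- operators on `V`
  let V := VV S o K s b (2 * e + 2) j x w
  let eV : Module.End k V := (QT S (Te k o x)).restrict (VV_QT C (HD_Te o x) (WW_Te hx))
  let fV : Module.End k V := (QT S (Tf k o x)).restrict (VV_QT C (HD_Tf o x) (WW_Tf hx))
  let hV : Module.End k V := (QT S (dg (th k o x))).restrict (VV_QT C (HD_dg _) WW_th)
  have ce : ∀ v : V, ((eV v : V) : F) = QT S (Te k o x) (v : F) := fun _ => rfl
  have cf : ∀ v : V, ((fV v : V) : F) = QT S (Tf k o x) (v : F) := fun _ => rfl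
  have ch : ∀ v : V, ((hV v : V) : F) = QT S (dg (th k o x)) (v : F) := fun _ => rfl
  -- nilpotency of `f`
  obtain ⟨M1, hM1⟩ := Ng_fin (S := S) A (fun μ => μ o) (s + b) (2 * e + 2)
  have n1 := nil_of (A.G (s + b) (2 * e + 2)) (Ng S fun μ => ((μ o : ℕ) : k)) (QT S (Tf k o x))
    (fun v hv => QT_mem A _ hv) (fun v hv => QT_mem A _ hv) (by
      have := Ng_QT S (fun μ => ((μ o : ℕ) : k)) (HD_Tf (d := e + 1) o x) (t := -1) (by
        intro μ _ ν _ hc
        obtain ⟨h1, h2⟩ := coeff_Tf hc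
        rw [h1, mv_from hx, Nat.cast_sub (by omega)]
        push_cast
        ring)
      rw [this, neg_one_smul]
      abel) M1 hM1
  obtain ⟨M2, n2⟩ := Pool.Agent.H30.OP.nil_D A hx p (2 * e + 2)
  have cfp : ∀ (a : ℕ) (v : V), (((fV ^ a) v : V) : F) = (QT S (Tf k o x) ^ a) (v : F) := by
    intro a
    induction a with
    | zero => intro v; rfl
    | succ a ih =>
      intro v
      rw [pow_succ', Module.End.mul_apply, cf, ih, pow_succ', Module.End.mul_apply]
  have cLN : ∀ (a : ℕ) (Θ : F), (LN C x o ^ a) ((LinearMap.range K.D).mkQ Θ)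
      = (LinearMap.range K.D).mkQ ((S.D (X x) o ^ a) Θ) := by
    intro a
    induction a with
    | zero => intro Θ; rfl
    | succ a ih =>
      intro Θ
      rw [pow_succ', Module.End.mul_apply, ih, LN_mk, pow_succ', Module.End.mul_apply]
  -- the map
  let ψ : V →ₗ[k] HN K := Q.φ ∘ₗ V.subtype
  have cψ : ∀ v : V, ψ v = Q.φ (v : F) := fun _ => rfl
  have main : ψ = 0 := by
    refine sl2Hom eV fV hV (LN C o x) (LN C x o) (LN C o o - LN C x x) ?_ ?_ (LN_rel1 C x)
      (LN_rel2 C hx) ψ ?_ ((i : k) + 2 * j - w) ?_ ?_ (M1 + M2) ?_ ?_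
    · -- [e, f] = h
      refine LinearMap.ext fun v => Subtype.ext ?_
      have h1 := QT_QT S (HD_Te (d := e + 1) o x) (HD_Tf (d := e + 1) o x)
      have h2 : QT S (Te k o x ∘ₗ Tf k o x) - QT S (Tf k o x ∘ₗ Te k o x)
          = QT S (dg (th k o x)) := by
        rw [← QT_sub]
        exact QT_congr S (comm_ef hx)
      rw [add_sub_assoc, h2] at h1
      have h3 := app_eq h1 (v : F)
      rw [Module.End.mul_apply, LinearMap.add_apply, Module.End.mul_apply] at h3
      rw [LinearMap.sub_apply, Module.End.mul_apply, Module.End.mul_apply, Submodule.coe_sub, ce,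
        cf, cf, ce, ch, h3, add_sub_cancel_left]
    · -- [h, f] = -2 f
      refine LinearMap.ext fun v => Subtype.ext ?_
      have h1 := QT_QT S (HD_dg (d := e + 1) (th k o x)) (HD_Tf (d := e + 1) o x)
      have h2 : QT S (dg (th k o x) ∘ₗ Tf k o x) - QT S (Tf k o x ∘ₗ dg (th k o x))
          = QT S (-(2 : k) • Tf k o x) := by
        rw [← QT_sub]
        exact QT_congr S (comm_hf hx)
      rw [add_sub_assoc, h2, QT_smul] at h1
      have h3 := app_eq h1 (v : F)
      rw [Module.End.mul_apply, LinearMap.add_apply, Module.End.mul_apply,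
        LinearMap.smul_apply] at h3
      rw [LinearMap.sub_apply, Module.End.mul_apply, Module.End.mul_apply, Submodule.coe_sub, ch,
        cf, cf, ch, h3, add_sub_cancel_left, LinearMap.smul_apply, Submodule.coe_smul, cf]
    · -- `e` commutes
      intro v
      obtain ⟨v1, v2, v3⟩ := mem_VV.mp v.2
      rw [cψ, cψ, ce, ← Q.ox x hx _ v1]
      have h1 : QT S (T12 k o x) (v : F) = QT S (Te k o x) (v : F)
          + QT S (Fk.cpd (X o) x ∘ₗ dg (g1 k o)) (v : F) := by
        rw [← LinearMap.add_apply, ← QT_add]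
        congr 1
        refine QT_congr S fun μ _ => ?_
        unfold T12 Te
        rw [LinearMap.add_apply, LinearMap.comp_apply, LinearMap.comp_apply,
          LinearMap.comp_apply, dg_mon, dg_mon, dg_mon, ← map_add, ← add_smul, add_comm (g1 k o μ)]
      rw [h1, map_add]
      have h2 : HD (e + 1) (Fk.cpd (X o) x ∘ₗ dg (g1 k o)) := HD_cpd_dg _ _ _
      have h3 : ∀ μ ∈ Mo σ (e + 1), ∀ ν ∈ Mo σ (e + 1),
          coeff ν ((Fk.cpd (X o) x ∘ₗ dg (g1 k o)) (monomial μ 1)) ≠ 0 → μ o = 1 ∧ ν o = 2 := by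
        intro μ _ ν _ hc
        obtain ⟨h4, _, h5⟩ := coeff_cpd_dg hc
        have h6 : μ o = 1 := by
          by_contra h6
          exact h5 (by unfold g1; rw [if_neg h6])
        exact ⟨h6, by rw [h4, mv_to (Ne.symm hx), h6]⟩
      have h4 : QT S (Fk.cpd (X o) x ∘ₗ dg (g1 k o)) (v : F) ∈ Cl K s b (2 * e + 2) :=
        Cl_QT C h2 (fun μ hμ ν hν hc => by
          obtain ⟨h5, h6⟩ := h3 μ hμ ν hν hc
          omega) v1
      rw [hj _ h4, add_zero]
      have h6 := app_eq (Ng_QT S (g2 k o) h2 (t := 1) (by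
        intro μ hμ ν hν hc
        obtain ⟨h7, h8⟩ := h3 μ hμ ν hν hc
        unfold g2
        rw [if_pos (by omega), if_neg (by omega), zero_add])) (v : F)
      rw [one_smul, LinearMap.add_apply, Module.End.mul_apply, Module.End.mul_apply, v2,
        map_smul] at h6
      rw [h6]
      push_cast
      rw [add_smul, one_smul]
    · intro n hn
      have h1 : ((i + 2 * j : ℕ) : k) = ((n + w : ℕ) : k) := by
        push_cast
        linear_combination hn
      have h2 := Nat.cast_injective h1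
      omega
    · -- weight
      intro v
      obtain ⟨v1, v2, v3⟩ := mem_VV.mp v.2
      rw [cψ, cψ, ch, LinearMap.sub_apply, ← Q.oo _ v1, ← Q.xy x x hx hx _ v1, ← map_sub,
        ← map_smul, ← map_add]
      congr 1
      have hA := ((mem_Cl' C).mp v1).1
      have hN0 := ((mem_Cl' C).mp v1).2.1
      have h1 : S.D (X x) x (v : F) = (w : k) • (v : F)
          + Ng S (fun μ => g2 k o μ * (μ x : k)) (v : F) := by
        rw [← v3]
        unfold DQ
        rw [LinearMap.sub_apply]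
        abel
      have h2 : Ng S (fun μ => (μ o : k)) (v : F)
          = Ng S (g1 k o) (v : F) + (Ng S (th k o x) (v : F)
            + ((2 : k) • Ng S (g2 k o) (v : F)
              + Ng S (fun μ => g2 k o μ * (μ x : k)) (v : F))) := by
        rw [← Ng_smul_apply, ← Ng_add_apply, ← Ng_add_apply, ← Ng_add_apply]
        congr 2
        funext μ
        unfold g1 g2 th
        rcases Nat.lt_or_ge (μ o) 2 with h | h
        · rcases Nat.lt_or_ge (μ o) 1 with h9 | h9
          · have h10 : μ o = 0 := by omega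
            rw [if_neg (by omega), if_neg (by omega), if_neg (by omega), h10]
            push_cast; ring
          · have h10 : μ o = 1 := by omega
            rw [if_pos (by omega), if_neg (by omega), if_neg (by omega), h10]
            push_cast; ring
        · rw [if_neg (by omega), if_pos h, if_pos h]
          ring
      have h3 := N_sum A o hA
      rw [hN0, v2] at h3
      have h4 : Ng S (g1 k o) (v : F) = (i : k) • (v : F) := by
        have h5 : Ng S (g1 k o) (v : F) = ((s + b : ℕ) : k) • (v : F) - (s : k) • (v : F)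
            - (j : k) • (v : F) := by
          rw [← h3]; abel
        rw [h5, ← sub_smul, ← sub_smul]
        congr 1
        rw [← hij]
        push_cast
        ring
      rw [h1, h2, h4, v2, smul_smul]
      have h5 : QT S (dg (th k o x)) (v : F) = Ng S (th k o x) (v : F) := rfl
      rw [h5, sub_smul, add_smul]
      abel
    · intro v
      refine Subtype.ext ?_
      rw [cfp, Submodule.coe_zero, add_comm M1 M2, pow_add, Module.End.mul_apply,
        n1 _ ((mem_Cl' C).mp (mem_VV.mp v.2).1).1, map_zero]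
    · intro v
      obtain ⟨Θ, h1, _, h3⟩ := Q.lift _ (mem_VV.mp v.2).1
      rw [cψ, h3, cLN, pow_add, Module.End.mul_apply, n2 Θ h1, map_zero, map_zero]
  have h := congrArg (fun f : V →ₗ[k] HN K => f ⟨y, hy, hN, hq⟩) main
  exact h

end Pool.Agent.H80.OP
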