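import Pool.Agent.H80.OP.SecQ

set_option autoImplicit false
set_option linter.unusedSectionVars false

/-!
# Ottaviani-Paoletti: diagonal operators

`Ng g = ∑ g μ E_μ J_μ`.
-/

open MvPolynomial

namespace Pool.Agent.H80.OP

open Pool.Agent.H27.OP

variable {σ k : Type*} [Fintype σ] [Field k]

/-- diagonal linear map `x^μ ↦ g μ x^μ` -/
noncomputable def dg (g : (σ →₀ ℕ) → k) : MvPolynomial σ k →ₗ[k] MvPolynomial σ k :=
  (basisMonomials σ k).constr k fun μ => g μ • monomial μ 1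

lemma dg_mon (g : (σ →₀ ℕ) → k) (μ : σ →₀ ℕ) :
    dg g (monomial μ (1 : k)) = g μ • monomial μ 1 := by
  unfold dg
  have h := (basisMonomials σ k).constr_basis k (fun μ => g μ • monomial μ (1 : k)) μ
  rwa [coe_basisMonomials] at h

lemma coeff_dg (g : (σ →₀ ℕ) → k) (ν : σ →₀ ℕ) (p : MvPolynomial σ k) :
    coeff ν (dg g p) = g ν * coeff ν p := by
  classical
  induction p using MvPolynomial.induction_on' with
  | monomial u a =>
    have h1 : monomial u a = a • monomial u (1 : k) := by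
      rw [smul_monomial, smul_eq_mul, mul_one]
    rw [h1, map_smul, dg_mon, coeff_smul, coeff_smul, coeff_smul, coeff_monomial]
    split_ifs with h
    · subst h
      simp only [smul_eq_mul]; ring
    · simp
  | add p q hp hq => rw [map_add, coeff_add, coeff_add, hp, hq, mul_add]

section

variable {O : Type*} [Ring O] [Algebra k O] {d : ℕ} (S : Fk σ k O d)

/-- diagonal operator -/
noncomputable def Ng (S : Fk σ k O d) (g : (σ →₀ ℕ) → k) : O := QT S (dg g)

lemma HD_dg (g : (σ →₀ ℕ) → k) : HD d (dg g) := fun μ hμ => by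
  rw [dg_mon, smul_eq_C_mul]
  exact (isHomogeneous_monomial _ (mem_Mo.mp hμ)).C_mul _

lemma Ng_eq (g : (σ →₀ ℕ) → k) : Ng S g = ∑ μ ∈ Mo σ d, g μ • (S.E μ * S.J μ) := by
  unfold Ng QT
  refine Finset.sum_congr rfl fun μ hμ => ?_
  rw [dg_mon, map_smul, S.Ee_monomial hμ, smul_mul_assoc]

lemma Ng_m (g : (σ →₀ ℕ) → k) (a : MvPolynomial σ k) : Ng S g * S.m a = S.m a * Ng S g :=
  QT_m S _ a

lemma Ng_T (g : (σ →₀ ℕ) → k) (x : σ) : Ng S g * S.T x = S.T x * Ng S g :=
  QT_T S _ x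

lemma Ng_Ee (g : (σ →₀ ℕ) → k) {e : MvPolynomial σ k} (he : e.IsHomogeneous d) {t : k}
    (h : ∀ ν ∈ Mo σ d, coeff ν e ≠ 0 → g ν = t) :
    Ng S g * S.Ee e = S.Ee e * Ng S g + t • S.Ee e := by
  unfold Ng
  rw [QT_Ee S _ he]
  congr 1
  rw [← map_smul]
  rw [S.Ee_apply, S.Ee_apply]
  refine Finset.sum_congr rfl fun ν hν => ?_
  rw [coeff_dg, coeff_smul, smul_eq_mul]
  by_cases hc : coeff ν e = 0
  · rw [hc, mul_zero, mul_zero]
  · rw [h ν hν hc]

lemma Ng_E (g : (σ →₀ ℕ) → k) {μ : σ →₀ ℕ} (hμ : μ ∈ Mo σ d) :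
    Ng S g * S.E μ = S.E μ * Ng S g + g μ • S.E μ := by
  classical
  have h := Ng_Ee S g (e := monomial μ 1) (t := g μ) (isHomogeneous_monomial _ (mem_Mo.mp hμ))
    (by
      intro ν _ hc
      rw [coeff_monomial] at hc
      by_cases h : μ = ν
      · rw [h]
      · rw [if_neg h] at hc; exact absurd rfl hc)
  rwa [S.Ee_monomial hμ] at h

lemma Ng_J (g : (σ →₀ ℕ) → k) {μ : σ →₀ ℕ} (hμ : μ ∈ Mo σ d) :
    Ng S g * S.J μ = S.J μ * Ng S g - g μ • S.J μ := by
  classical
  unfold Ng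
  rw [QT_J S _ hμ]
  congr 1
  rw [Finset.sum_eq_single μ]
  · rw [coeff_dg, coeff_monomial, if_pos rfl, mul_one]
  · intro ν _ h
    rw [coeff_dg, coeff_monomial, if_neg h, mul_zero, zero_smul]
  · intro h; exact absurd hμ h

/-- second quantised maps which shift the weight `g` by `t` -/
lemma Ng_QT (g : (σ →₀ ℕ) → k) {T : MvPolynomial σ k →ₗ[k] MvPolynomial σ k} (hT : HD d T) {t : k}
    (h : ∀ μ ∈ Mo σ d, ∀ ν ∈ Mo σ d, coeff ν (T (monomial μ 1)) ≠ 0 → g ν = g μ + t) :
    Ng S g * QT S T = QT S T * Ng S g + t • QT S T := by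
  unfold Ng
  rw [QT_QT S (HD_dg g) hT, add_sub_assoc, ← QT_sub, ← QT_smul]
  congr 1
  unfold QT
  refine Finset.sum_congr rfl fun μ hμ => ?_
  congr 1
  rw [S.Ee_apply, S.Ee_apply]
  refine Finset.sum_congr rfl fun ν hν => ?_
  congr 1
  rw [LinearMap.sub_apply, LinearMap.comp_apply, LinearMap.comp_apply, dg_mon, map_smul, coeff_sub,
    coeff_dg, coeff_smul, LinearMap.smul_apply, coeff_smul, smul_eq_mul, smul_eq_mul]
  by_cases hc : coeff ν (T (monomial μ 1)) = 0
  · rw [hc]; ring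
  · rw [h μ hμ ν hν hc]; ring

/-- differentials removing letters of weight `t` -/
lemma Ng_dl (g : (σ →₀ ℕ) → k) {π : MvPolynomial σ k →ₗ[k] MvPolynomial σ k} {t : k}
    (h : ∀ μ ∈ Mo σ d, π (monomial μ 1) = 0 ∨ g μ = t) :
    Ng S g * dl S π = dl S π * Ng S g - t • dl S π := by
  unfold Ng
  rw [QT_dl S (HD_dg g)]
  congr 1
  rw [← dl_smul]
  refine dl_congr S fun μ hμ => ?_
  rw [LinearMap.comp_apply, dg_mon, map_smul, LinearMap.smul_apply]
  rcases h μ hμ with h1 | h1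
  · rw [h1, smul_zero, smul_zero]
  · rw [h1]

end

/-! ### uniform local finiteness -/

section

variable {F : Type*} [AddCommGroup F] [Module k F] {d : ℕ}
variable {S : Fk σ k (Module.End k F) d} (A : Gr S)

lemma Ng_apply (g : (σ →₀ ℕ) → k) (ω : F) :
    Ng S g ω = ∑ μ ∈ Mo σ d, g μ • S.E μ (S.J μ ω) := by
  rw [Ng_eq, LinearMap.sum_apply]
  rfl

include A in
/-- a diagonal operator with natural coefficients is uniformly locally finite -/
theorem diag_fin [CharZero k] (t : σ → ℕ) (c : (σ →₀ ℕ) → ℕ) (a m : ℕ) :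
    ∀ ω ∈ A.G a m, dp (∑ x, (t x : k) • (S.m (X x) * S.T x) + Ng S fun μ => (c μ : k))
      ((∑ x, t x * m) + (∑ μ ∈ Mo σ d, c μ) + 1) ω = 0 := by
  intro ω hω
  set H : Module.End k F := ∑ x, (t x : k) • (S.m (X x) * S.T x) + Ng S fun μ => (c μ : k) with hH
  set M := (∑ x, t x * m) + (∑ μ ∈ Mo σ d, c μ) + 1 with hM
  have h1 := jeig (nop S) (nix σ d) (A.G a m) (fun i _ w hw => nop_mem A i hw)
    (fun i hi w hw => nop_LF A hi hw) (fun i hi j hj => nop_comm hi hj) hω
  have h2 : Submodule.span k {v | v ∈ A.G a m ∧ ∀ i ∈ nix σ d, ∃ n : ℕ, nop S i v = (n : k) • v}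
      ≤ LinearMap.ker (dp H M) := by
    rw [Submodule.span_le]
    rintro v ⟨hv, hv'⟩
    show v ∈ LinearMap.ker (dp H M)
    rw [LinearMap.mem_ker]
    by_cases h0 : v = 0
    · rw [h0, map_zero]
    have h3 : ∀ μ : σ →₀ ℕ, ∃ n : ℕ, n ≤ 1 ∧ (μ ∈ Mo σ d → S.E μ (S.J μ v) = (n : k) • v) := by
      intro μ
      by_cases hμ : μ ∈ Mo σ d
      · obtain ⟨n, hn⟩ := hv' (Sum.inl μ) (mem_nix_inl.mpr hμ)
        refine ⟨n, ?_, fun _ => hn⟩
        have h4 : (nop S (Sum.inl μ) * nop S (Sum.inl μ)) v = nop S (Sum.inl μ) v := by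
          show ((S.E μ * S.J μ) * (S.E μ * S.J μ)) v = (S.E μ * S.J μ) v
          rw [nop_inl_sq hμ]
        rw [Module.End.mul_apply, hn, map_smul, hn, smul_smul] at h4
        have h5 : (((n * n : ℕ) : k) - (n : k)) • v = 0 := by
          rw [sub_smul, Nat.cast_mul, h4, sub_self]
        rcases smul_eq_zero.mp h5 with h6 | h6
        · have h7 : n * n = n := Nat.cast_injective (sub_eq_zero.mp h6)
          by_contra h8
          nlinarith
        · exact absurd h6 h0
      · exact ⟨0, by omega, fun h => absurd h hμ⟩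
    have h4 : ∀ x : σ, ∃ n : ℕ, n ≤ m ∧ S.m (X x) (S.T x v) = (n : k) • v := by
      intro x
      obtain ⟨n, hn⟩ := hv' (Sum.inr x) mem_nix_inr
      refine ⟨n, ?_, hn⟩
      have h5 : dp (S.m (X x) * S.T x) (m + 1) v = 0 := by
        rw [dp_XT, Module.End.mul_apply, T_pow_zero A x m hv, map_zero]
      have h6 : dp (S.m (X x) * S.T x) (m + 1) v
          = (∏ i ∈ Finset.range (m + 1), ((n : k) - i)) • v := dp_eig _ hn _
      rw [h6] at h5
      rcases smul_eq_zero.mp h5 with h7 | h7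
      · rw [Finset.prod_eq_zero_iff] at h7
        obtain ⟨i, hi, hi'⟩ := h7
        have h8 : n = i := Nat.cast_injective (sub_eq_zero.mp hi')
        rw [Finset.mem_range] at hi
        omega
      · exact absurd h7 h0
    choose n hn1 hn using h3
    choose r hr1 hr using h4
    have h5 : H v = ((∑ x, t x * r x + ∑ μ ∈ Mo σ d, c μ * n μ : ℕ) : k) • v := by
      rw [hH, LinearMap.add_apply, LinearMap.sum_apply, Ng_apply, Nat.cast_add, add_smul,
        Nat.cast_sum, Nat.cast_sum, Finset.sum_smul, Finset.sum_smul]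
      congr 1
      · refine Finset.sum_congr rfl fun x _ => ?_
        rw [LinearMap.smul_apply, Module.End.mul_apply, hr x, smul_smul, Nat.cast_mul]
      · refine Finset.sum_congr rfl fun μ hμ => ?_
        rw [hn μ hμ, smul_smul, Nat.cast_mul]
    rw [dp_eig H h5, Finset.prod_eq_zero (i := ∑ x, t x * r x + ∑ μ ∈ Mo σ d, c μ * n μ),
      zero_smul]
    · rw [Finset.mem_range, hM, Nat.lt_succ_iff]
      refine add_le_add (Finset.sum_le_sum fun x _ => Nat.mul_le_mul_left _ (hr1 x))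
        (Finset.sum_le_sum fun μ _ => ?_)
      calc c μ * n μ ≤ c μ * 1 := Nat.mul_le_mul_left _ (hn1 μ)
        _ = c μ := mul_one _
    · rw [sub_self]
  exact LinearMap.mem_ker.mp (h2 h1)

end

/-- a vector with negative eigenvalue which is killed by some `dp` vanishes -/
lemma dp_neg [CharZero k] {V : Type*} [AddCommGroup V] [Module k V] (H : Module.End k V) {v : V}
    {t : ℕ} {M : ℕ} (h : H v = (-(t + 1 : k)) • v) (hM : dp H M v = 0) : v = 0 := by
  rw [dp_eig H h] at hM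
  refine (smul_eq_zero.mp hM).resolve_left ?_
  rw [← ne_eq, Finset.prod_ne_zero_iff]
  intro i _ h2
  have h3 : ((t + 1 + i : ℕ) : k) = 0 := by
    push_cast
    linear_combination -h2
  have h4 : t + 1 + i = 0 := by exact_mod_cast h3
  omega

end Pool.Agent.H80.OP
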